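import Pool.Agent.H85.FD.Fix

/-!
# `S_3`-stable finite families in a field

`T : α → F`, `α` finite.  `S3St T`: no value is `1`, and the multiset of the values is stable under
`s ↦ 1/s` and `s ↦ 1 - s`, hence under the group `S_3` generated by them.
* `s3_of_inv`: this follows from inversion stability of the families `T` and `1 - 1/T`.
* `mul_inv`, `mul_sub`: multiplicities are constant on the orbits.
* `count`: in characteristic `≠ 2, 3`,
  `card α = 3 mul T (-1) + ∑_{x² - x + 1 = 0} mul T x + 6 c`.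
* `count_root`, `count_noroot`: with a root `ζ` of `X² - X + 1` in `F`, respectively without one.
-/

namespace H85FD

open Finset

section weights

variable {β : Type*}

/-- weights constant under a fixed point free involution have an even sum -/
lemma two_dvd_sum (A : Finset β) (w : β → ℕ) (g : β → β) (hgA : ∀ x ∈ A, g x ∈ A)
    (hg2 : ∀ x ∈ A, g (g x) = x) (hgne : ∀ x ∈ A, g x ≠ x) (hw : ∀ x ∈ A, w (g x) = w x) :
    2 ∣ ∑ x ∈ A, w x := by
  have h : (∑ x ∈ A, (w x : ZMod 2)) = 0 :=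
    sum_involution (fun x _ => g x) (fun x hx => by rw [hw x hx]; exact CharTwo.add_self_eq_zero _)
      (fun x hx _ => hgne x hx) (fun x hx => hgA x hx) (fun x hx => hg2 x hx)
  rw [← ZMod.natCast_eq_zero_iff]
  push_cast
  exact h

/-- weights constant under a fixed point free substitution of order three have a sum divisible by
three -/
lemma three_dvd_sum (A : Finset β) (w : β → ℕ) (g : β → β) (hgA : ∀ x ∈ A, g x ∈ A)
    (hg3 : ∀ x ∈ A, g (g (g x)) = x) (hgne : ∀ x ∈ A, g x ≠ x) (hw : ∀ x ∈ A, w (g x) = w x) :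
    3 ∣ ∑ x ∈ A, w x := by
  classical
  have hlev : ∀ k : ℕ, 3 ∣ (A.filter (fun x => w x = k)).card := by
    intro k
    set B := A.filter (fun x => w x = k) with hB
    have hgB : ∀ x ∈ B, g x ∈ B := by
      intro x hx
      rw [hB, mem_filter] at hx ⊢
      exact ⟨hgA x hx.1, by rw [hw x hx.1]; exact hx.2⟩
    let e : Function.End B := fun x => ⟨g x.1, hgB x.1 x.2⟩
    have he : ∀ x, (e x).1 = g x.1 := fun x => rfl
    have : Fact (Nat.Prime 3) := ⟨Nat.prime_three⟩
    have he3 : e ^ 3 ^ 1 = 1 := by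
      funext x
      apply Subtype.ext
      have h5 : (e ^ 3 ^ 1) x = e (e (e x)) := by
        rw [pow_one, pow_succ, pow_succ, pow_one]
        rfl
      rw [h5, he, he, he]
      exact hg3 x.1 (mem_filter.mp x.2).1
    have hmod := Equiv.Perm.card_fixedPoints_modEq he3
    have hempty : Fintype.card (Function.fixedPoints e) = 0 := by
      rw [Fintype.card_eq_zero_iff]
      constructor
      rintro ⟨x, hx⟩
      have hx' : e x = x := hx
      have := congrArg Subtype.val hx'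
      rw [he] at this
      exact hgne x.1 (mem_filter.mp x.2).1 this
    rw [hempty, Fintype.card_coe] at hmod
    exact (Nat.modEq_zero_iff_dvd).mp hmod
  have h := sum_comp (s := A) (f := fun k : ℕ => k) (g := w)
  simp only [smul_eq_mul] at h
  rw [h]
  exact dvd_sum fun k _ => Dvd.dvd.mul_right (hlev k) _

end weights

variable {F : Type*} [Field F] {α : Type*} [Fintype α]

/-- the multiset of the values of `T` does not contain `1` and is stable under `1/s` and `1 - s` -/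
structure S3St (T : α → F) : Prop where
  ne1 : ∀ v, T v ≠ 1
  inv : ∃ σ : Equiv.Perm α, ∀ v, T (σ v) * T v = 1
  sub : ∃ σ : Equiv.Perm α, ∀ v, T (σ v) + T v = 1

omit [Fintype α] in
/-- inversion stability of `T` and of `1 - 1/T` gives `S_3`-stability -/
theorem s3_of_inv (T : α → F) (h1 : ∀ v, T v ≠ 1)
    (hI : ∃ σ : Equiv.Perm α, ∀ v, T (σ v) * T v = 1)
    (hI' : ∃ σ : Equiv.Perm α, ∀ v, (1 - 1 / T (σ v)) * (1 - 1 / T v) = 1) : S3St T := by
  refine ⟨h1, hI, ?_⟩
  obtain ⟨σ, hσ⟩ := hI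
  obtain ⟨τ, hτ⟩ := hI'
  have h0 : ∀ v, T v ≠ 0 := by
    intro v hv
    have := hσ v
    rw [hv, mul_zero] at this
    exact zero_ne_one this
  refine ⟨τ, fun v => ?_⟩
  have h := hτ v
  have a := h0 v
  have b := h0 (τ v)
  field_simp at h
  linear_combination -h

namespace S3St

variable {T : α → F}

omit [Fintype α] in
lemma ne0 (h : S3St T) (v : α) : T v ≠ 0 := by
  obtain ⟨σ, hσ⟩ := h.inv
  intro hv
  have := hσ v
  rw [hv, mul_zero] at this
  exact zero_ne_one this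

omit [Fintype α] in
lemma inv' (h : S3St T) : ∃ σ : Equiv.Perm α, ∀ v, T (σ v) = (T v)⁻¹ := by
  obtain ⟨σ, hσ⟩ := h.inv
  exact ⟨σ, fun v => eq_inv_of_mul_eq_one_left (hσ v)⟩

omit [Fintype α] in
lemma sub' (h : S3St T) : ∃ σ : Equiv.Perm α, ∀ v, T (σ v) = 1 - T v := by
  obtain ⟨σ, hσ⟩ := h.sub
  exact ⟨σ, fun v => eq_sub_of_add_eq (hσ v)⟩

omit [Fintype α] in
/-- `s ↦ 1 - 1/s` -/
lemma rot (h : S3St T) : ∃ σ : Equiv.Perm α, ∀ v, T (σ v) = 1 - (T v)⁻¹ := by
  obtain ⟨σ, hσ⟩ := h.inv'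
  obtain ⟨τ, hτ⟩ := h.sub'
  exact ⟨σ.trans τ, fun v => by rw [Equiv.trans_apply, hτ, hσ]⟩

omit [Fintype α] in
/-- `s ↦ 1 / (1 - s)` -/
lemma rot' (h : S3St T) : ∃ σ : Equiv.Perm α, ∀ v, T (σ v) = (1 - T v)⁻¹ := by
  obtain ⟨σ, hσ⟩ := h.inv'
  obtain ⟨τ, hτ⟩ := h.sub'
  exact ⟨τ.trans σ, fun v => by rw [Equiv.trans_apply, hσ, hτ]⟩

/-- `s ↦ s / (s - 1)` -/
lemma third (h : S3St T) : ∃ σ : Equiv.Perm α, ∀ v, T (σ v) = T v / (T v - 1) := by
  obtain ⟨σ, hσ⟩ := h.rot'
  obtain ⟨τ, hτ⟩ := h.sub'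
  refine ⟨σ.trans τ, fun v => ?_⟩
  have h1 : 1 - T v ≠ 0 := sub_ne_zero.mpr (Ne.symm (h.ne1 v))
  have h2 : T v - 1 ≠ 0 := sub_ne_zero.mpr (h.ne1 v)
  rw [Equiv.trans_apply, hτ, hσ]
  field_simp
  ring

end S3St

/-- multiplicities are constant under an injective substitution which is realised by a
permutation -/
lemma mul_sub_eq (T : α → F) (g : F → F) (hg : Function.Injective g) (σ : Equiv.Perm α)
    (h : ∀ v, T (σ v) = g (T v)) (x : F) : mul T (g x) = mul T x := by
  classical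
  rw [← mul_perm T σ (g x)]
  unfold mul
  congr 1
  ext v
  simp only [mem_filter, mem_univ, true_and, h]
  exact hg.eq_iff

namespace S3St

variable {T : α → F}

lemma mul_inv (h : S3St T) (x : F) : mul T x⁻¹ = mul T x := by
  obtain ⟨σ, hσ⟩ := h.inv'
  exact mul_sub_eq T (fun x => x⁻¹) inv_injective σ hσ x

lemma mul_one_sub (h : S3St T) (x : F) : mul T (1 - x) = mul T x := by
  obtain ⟨σ, hσ⟩ := h.sub'
  exact mul_sub_eq T (fun x => 1 - x) (fun a b hab => by simpa using hab) σ hσ x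

lemma mul_rot (h : S3St T) (x : F) : mul T (1 - x⁻¹) = mul T x := by
  rw [h.mul_one_sub, h.mul_inv]

lemma mul_zero' (h : S3St T) : mul T 0 = 0 := by
  by_contra hne
  obtain ⟨v, hv⟩ := (mul_pos_iff T 0).mp (Nat.pos_of_ne_zero hne)
  exact h.ne0 v hv

lemma mul_one' (h : S3St T) : mul T 1 = 0 := by
  by_contra hne
  obtain ⟨v, hv⟩ := (mul_pos_iff T 1).mp (Nat.pos_of_ne_zero hne)
  exact h.ne1 v hv

open Classical in
/-- the counting form -/
theorem count (h : S3St T) (h2 : (2 : F) ≠ 0) (h3 : (3 : F) ≠ 0) :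
    ∃ c : ℕ, Fintype.card α = 3 * mul T (-1) +
      ∑ x ∈ (univ.image T).filter (fun x => x ^ 2 - x + 1 = 0), mul T x + 6 * c := by
  set S := univ.image T with hS
  set E : Finset F := {-1, 2, 2⁻¹} with hE
  have hS0 : ∀ x ∈ S, x ≠ 0 ∧ x ≠ 1 := by
    intro x hx
    obtain ⟨v, -, rfl⟩ := mem_image.mp hx
    exact ⟨h.ne0 v, h.ne1 v⟩
  have hSinv : ∀ x ∈ S, x⁻¹ ∈ S := by
    intro x hx
    obtain ⟨v, -, rfl⟩ := mem_image.mp hx
    obtain ⟨σ, hσ⟩ := h.inv'
    exact mem_image.mpr ⟨σ v, mem_univ _, hσ v⟩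
  have hSsub : ∀ x ∈ S, 1 - x ∈ S := by
    intro x hx
    obtain ⟨v, -, rfl⟩ := mem_image.mp hx
    obtain ⟨σ, hσ⟩ := h.sub'
    exact mem_image.mpr ⟨σ v, mem_univ _, hσ v⟩
  have hmem : ∀ x ∉ S, mul T x = 0 := by
    intro x hx
    by_contra hne
    obtain ⟨v, hv⟩ := (mul_pos_iff T x).mp (Nat.pos_of_ne_zero hne)
    exact hx (mem_image.mpr ⟨v, mem_univ _, hv⟩)
  -- the three parts
  set S1 := S.filter (fun x => x ^ 2 - x + 1 = 0) with hS1
  set R := S.filter (fun x => ¬ (x ^ 2 - x + 1 = 0) ∧ x ∉ E) with hR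
  set S0 := S.filter (fun x => ¬ (x ^ 2 - x + 1 = 0) ∧ ¬ x ∉ E) with hS0'
  have hsplit : ∑ x ∈ S, mul T x = ∑ x ∈ S1, mul T x + (∑ x ∈ R, mul T x + ∑ x ∈ S0, mul T x) := by
    rw [← sum_filter_add_sum_filter_not S (fun x => x ^ 2 - x + 1 = 0)]
    congr 1
    rw [← sum_filter_add_sum_filter_not (S.filter fun x => ¬ (x ^ 2 - x + 1 = 0))
      (fun x => x ∉ E), filter_filter, filter_filter]
  -- the elements of `E`
  have hE1 : (-1 : F) ≠ 2 := by
    intro h'
    apply h3
    linear_combination -h'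
  have hE2 : (2 : F) ≠ 2⁻¹ := by
    intro h'
    field_simp at h'
    apply h3
    linear_combination h'
  have hE3 : (-1 : F) ≠ 2⁻¹ := by
    intro h'
    field_simp at h'
    apply h3
    linear_combination -h'
  have hEsum : ∑ x ∈ E, mul T x = 3 * mul T (-1) := by
    rw [hE, sum_insert (by simp [hE1, hE3]), sum_insert (by simpa using hE2), sum_singleton,
      h.mul_inv 2]
    have : mul T 2 = mul T (-1) := by
      rw [← h.mul_one_sub (-1)]
      norm_num
    rw [this]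
    ring
  have hEroot : ∀ x ∈ E, ¬ (x ^ 2 - x + 1 = 0) := by
    intro x hx h'
    rw [hE, mem_insert, mem_insert, mem_singleton] at hx
    rcases hx with rfl | rfl | rfl
    · apply h3
      linear_combination h'
    · apply h3
      linear_combination h'
    · field_simp at h'
      apply h3
      linear_combination h'
  have hS0sum : ∑ x ∈ S0, mul T x = 3 * mul T (-1) := by
    rw [← hEsum]
    refine sum_subset ?_ ?_
    · intro x hx
      rw [hS0', mem_filter] at hx
      exact not_not.mp hx.2.2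
    · intro x hx hx'
      apply hmem
      intro hxS
      exact hx' (by rw [hS0', mem_filter]; exact ⟨hxS, hEroot x hx, not_not.mpr hx⟩)
  -- the remaining part
  have hRS : ∀ x ∈ R, x ∈ S ∧ ¬ (x ^ 2 - x + 1 = 0) ∧ x ≠ -1 ∧ x ≠ 2 ∧ x ≠ 2⁻¹ := by
    intro x hx
    rw [hR, mem_filter, hE, mem_insert, mem_insert, mem_singleton] at hx
    push Not at hx
    exact ⟨hx.1, hx.2.1, hx.2.2.1, hx.2.2.2.1, hx.2.2.2.2⟩
  have hRmem : ∀ x, x ∈ S → ¬ (x ^ 2 - x + 1 = 0) → x ≠ -1 → x ≠ 2 → x ≠ 2⁻¹ → x ∈ R := by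
    intro x h1 h2' h3' h4 h5
    rw [hR, mem_filter, hE, mem_insert, mem_insert, mem_singleton]
    push Not
    exact ⟨h1, h2', h3', h4, h5⟩
  have hRinv : ∀ x ∈ R, x⁻¹ ∈ R := by
    intro x hx
    obtain ⟨a1, a2, a3, a4, a5⟩ := hRS x hx
    have x0 := (hS0 x a1).1
    refine hRmem _ (hSinv x a1) ?_ ?_ ?_ ?_
    · intro h'
      apply a2
      field_simp at h'
      linear_combination h'
    · intro h'
      apply a3
      rw [← inv_inv x, h']
      norm_num
    · intro h'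
      apply a5
      rw [← inv_inv x, h']
    · intro h'
      apply a4
      exact inv_injective h'
  have hRsub : ∀ x ∈ R, 1 - x ∈ R := by
    intro x hx
    obtain ⟨a1, a2, a3, a4, a5⟩ := hRS x hx
    refine hRmem _ (hSsub x a1) ?_ ?_ ?_ ?_
    · intro h'
      apply a2
      linear_combination h'
    · intro h'
      apply a4
      linear_combination -h'
    · intro h'
      apply a3
      linear_combination -h'
    · intro h'
      apply a5
      have h5 : x = 1 - 2⁻¹ := by linear_combination -h'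
      rw [h5]
      field_simp
      ring
  have hR2 : 2 ∣ ∑ x ∈ R, mul T x := by
    refine two_dvd_sum R (mul T) (fun x => x⁻¹) hRinv (fun x _ => inv_inv x) ?_
      (fun x _ => h.mul_inv x)
    intro x hx he
    obtain ⟨a1, a2, a3, a4, a5⟩ := hRS x hx
    obtain ⟨x0, x1⟩ := hS0 x a1
    have h2' : x * x = 1 := by
      have he' : x⁻¹ = x := he
      nth_rewrite 1 [← he']
      exact inv_mul_cancel₀ x0
    rcases mul_self_eq_one_iff.mp h2' with h4 | h4
    · exact x1 h4
    · exact a3 h4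
  have hR3 : 3 ∣ ∑ x ∈ R, mul T x := by
    refine three_dvd_sum R (mul T) (fun x => 1 - x⁻¹) (fun x hx => hRsub _ (hRinv x hx)) ?_ ?_
      (fun x _ => h.mul_rot x)
    · intro x hx
      obtain ⟨a1, -⟩ := hRS x hx
      obtain ⟨a, b'⟩ := hS0 x a1
      have b : x - 1 ≠ 0 := sub_ne_zero.mpr b'
      have e1 : 1 - x⁻¹ = (x - 1) / x := by field_simp
      have e2 : 1 - (1 - x⁻¹)⁻¹ = -1 / (x - 1) := by
        rw [e1]
        field_simp
        ring
      show 1 - (1 - (1 - x⁻¹)⁻¹)⁻¹ = x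
      rw [e2]
      field_simp
      ring
    · intro x hx he
      obtain ⟨a1, a2, -⟩ := hRS x hx
      obtain ⟨a, -⟩ := hS0 x a1
      apply a2
      have hv' : 1 - x⁻¹ = x := he
      have e1 : 1 - x⁻¹ = (x - 1) / x := by field_simp
      rw [e1, div_eq_iff a] at hv'
      linear_combination -hv'
  have hR6 : 6 ∣ ∑ x ∈ R, mul T x := by
    have := Nat.Coprime.mul_dvd_of_dvd_of_dvd (by norm_num : Nat.Coprime 2 3) hR2 hR3
    simpa using this
  obtain ⟨c, hc⟩ := hR6
  refine ⟨c, ?_⟩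
  rw [← sum_mul T, ← hS, hsplit, hS0sum, hc]
  ring

open Classical in
/-- the counting form, when `ζ ∈ F` is a root of `X² - X + 1` -/
theorem count_root (h : S3St T) (h2 : (2 : F) ≠ 0) (h3 : (3 : F) ≠ 0) {ζ : F}
    (hζ : ζ ^ 2 - ζ + 1 = 0) :
    mul T (1 - ζ) = mul T ζ ∧ ∃ c : ℕ, Fintype.card α = 3 * mul T (-1) + 2 * mul T ζ + 6 * c := by
  refine ⟨h.mul_one_sub ζ, ?_⟩
  obtain ⟨c, hc⟩ := h.count h2 h3
  refine ⟨c, ?_⟩
  rw [hc]
  congr 2
  have hne : ζ ≠ 1 - ζ := by
    intro h'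
    apply h3
    have h4 : 2 * ζ = 1 := by linear_combination h'
    have h5 : 4 * (ζ ^ 2 - ζ + 1) = (2 * ζ) ^ 2 - 2 * (2 * ζ) + 4 := by ring
    rw [hζ, h4] at h5
    linear_combination -h5
  have hsum : ∑ x ∈ ({ζ, 1 - ζ} : Finset F), mul T x = 2 * mul T ζ := by
    rw [sum_insert (by simpa using hne), sum_singleton, h.mul_one_sub]
    ring
  rw [← hsum]
  refine sum_subset ?_ ?_
  · intro x hx
    rw [mem_filter] at hx
    rw [mem_insert, mem_singleton]
    have : (x - ζ) * (x - (1 - ζ)) = 0 := by linear_combination hx.2 - hζ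
    rcases mul_eq_zero.mp this with h' | h'
    · exact Or.inl (sub_eq_zero.mp h')
    · exact Or.inr (sub_eq_zero.mp h')
  · intro x hx hx'
    by_contra hne'
    obtain ⟨v, hv⟩ := (mul_pos_iff T x).mp (Nat.pos_of_ne_zero hne')
    apply hx'
    rw [mem_filter]
    refine ⟨mem_image.mpr ⟨v, mem_univ _, hv⟩, ?_⟩
    rw [mem_insert, mem_singleton] at hx
    rcases hx with rfl | rfl
    · exact hζ
    · linear_combination hζ

/-- the counting form, when no value is a root of `X² - X + 1` -/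
theorem count_noroot (h : S3St T) (h2 : (2 : F) ≠ 0) (h3 : (3 : F) ≠ 0)
    (hT : ∀ v, T v ^ 2 - T v + 1 ≠ 0) :
    ∃ c : ℕ, Fintype.card α = 3 * mul T (-1) + 6 * c := by
  classical
  obtain ⟨c, hc⟩ := h.count h2 h3
  refine ⟨c, ?_⟩
  rw [hc]
  congr 1
  have : (univ.image T).filter (fun x => x ^ 2 - x + 1 = 0) = ∅ := by
    rw [filter_eq_empty_iff]
    intro x hx
    obtain ⟨v, -, rfl⟩ := mem_image.mp hx
    exact hT v
  rw [this, sum_empty, add_zero]

/-- `3 ∤ n`: both roots of `X² - X + 1` occur -/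
theorem exists_root (h : S3St T) (hn : ¬ 3 ∣ Fintype.card α) :
    ∃ v, T v ^ 2 - T v + 1 = 0 := by
  classical
  by_contra hne
  push Not at hne
  obtain ⟨σ, hσ⟩ := h.rot
  apply hn
  rw [← sum_mul T]
  refine three_dvd_sum _ (mul T) (fun x => 1 - x⁻¹) ?_ ?_ ?_ (fun x _ => h.mul_rot x)
  · intro x hx
    obtain ⟨v, -, rfl⟩ := mem_image.mp hx
    exact mem_image.mpr ⟨σ v, mem_univ _, hσ v⟩
  · intro x hx
    obtain ⟨v, -, rfl⟩ := mem_image.mp hx
    have a := h.ne0 v
    have b : T v - 1 ≠ 0 := sub_ne_zero.mpr (h.ne1 v)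
    have e1 : 1 - (T v)⁻¹ = (T v - 1) / T v := by field_simp
    have e2 : 1 - (1 - (T v)⁻¹)⁻¹ = -1 / (T v - 1) := by
      rw [e1]
      field_simp
      ring
    show 1 - (1 - (1 - (T v)⁻¹)⁻¹)⁻¹ = T v
    rw [e2]
    field_simp
    ring
  · intro x hx he
    obtain ⟨v, -, rfl⟩ := mem_image.mp hx
    have a := h.ne0 v
    apply hne v
    have hv' : 1 - (T v)⁻¹ = T v := he
    have e1 : 1 - (T v)⁻¹ = (T v - 1) / T v := by field_simp
    rw [e1, div_eq_iff a] at hv'
    linear_combination -hv'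

/-- `n` odd: `-1` occurs (in odd multiplicity) -/
theorem exists_neg_one (h : S3St T) (hn : Odd (Fintype.card α)) : ∃ v, T v = -1 := by
  classical
  by_contra hne
  push Not at hne
  obtain ⟨σ, hσ⟩ := h.inv'
  apply (Nat.not_even_iff_odd.mpr hn)
  rw [even_iff_two_dvd, ← sum_mul T]
  refine two_dvd_sum _ (mul T) (fun x => x⁻¹) ?_ (fun x _ => inv_inv x) ?_
    (fun x _ => h.mul_inv x)
  · intro x hx
    obtain ⟨v, -, rfl⟩ := mem_image.mp hx
    exact mem_image.mpr ⟨σ v, mem_univ _, hσ v⟩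
  · intro x hx he
    obtain ⟨v, -, rfl⟩ := mem_image.mp hx
    have he' : (T v)⁻¹ = T v := he
    have h2' : T v * T v = 1 := by
      nth_rewrite 1 [← he']
      exact inv_mul_cancel₀ (h.ne0 v)
    rcases mul_self_eq_one_iff.mp h2' with h4 | h4
    · exact h.ne1 v h4
    · exact hne v h4

end S3St

end H85FD
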