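import Pool.Agent.H85.FD.AdmC

/-!
# The partition criterion, explicit form

`Parts wt m M`: the multiset `M` can be divided into `m` parts of equal weight.
`parts_of_S3`: the places which carry roots of `X² - X + 1` have even degree (`q = 2` modulo `3`) or can be
divided into two parts of equal weight (`q = 1` modulo `3`); the other places form three groups which can
be divided into `6`, `3`, `2` parts of equal weight, the degrees in the second group being even unless `-1`
is a member of the family, those in the third divisible by `3`.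
-/

namespace H85FD

open Finset

/-- `M` can be divided into `m` parts of equal weight -/
def Parts {α : Type*} (wt : α → ℕ) (m : ℕ) (M : Multiset α) : Prop :=
  ∃ A : Fin m → Multiset α, M = ∑ i, A i ∧ ∀ i j, ((A i).map wt).sum = ((A j).map wt).sum

section

variable {α : Type*} {wt : α → ℕ} {m : ℕ} {M M' : Multiset α}

theorem Parts.zero : Parts wt m (0 : Multiset α) :=
  ⟨fun _ => 0, by rw [sum_const_zero], fun _ _ => rfl⟩

theorem Parts.add (h : Parts wt m M) (h' : Parts wt m M') : Parts wt m (M + M') := by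
  obtain ⟨A, rfl, hA⟩ := h
  obtain ⟨A', rfl, hA'⟩ := h'
  refine ⟨fun i => A i + A' i, by rw [sum_add_distrib], fun i j => ?_⟩
  rw [Multiset.map_add, Multiset.map_add, Multiset.sum_add, Multiset.sum_add, hA i j, hA' i j]

theorem Parts.three_of_six (h : Parts wt 6 M) : Parts wt 3 M := by
  obtain ⟨A, rfl, hA⟩ := h
  have key : ∀ i : Fin 3, (((![A 0 + A 1, A 2 + A 3, A 4 + A 5] : Fin 3 → Multiset α) i).map wt).sum =
      ((A 0).map wt).sum + ((A 0).map wt).sum := by
    intro i
    fin_cases i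
    · show ((A 0 + A 1).map wt).sum = _
      rw [Multiset.map_add, Multiset.sum_add, hA 1 0]
    · show ((A 2 + A 3).map wt).sum = _
      rw [Multiset.map_add, Multiset.sum_add, hA 2 0, hA 3 0]
    · show ((A 4 + A 5).map wt).sum = _
      rw [Multiset.map_add, Multiset.sum_add, hA 4 0, hA 5 0]
  refine ⟨![A 0 + A 1, A 2 + A 3, A 4 + A 5], ?_, fun i j => by rw [key, key]⟩
  rw [Fin.sum_univ_six, Fin.sum_univ_three]
  show A 0 + A 1 + A 2 + A 3 + A 4 + A 5 = (A 0 + A 1) + (A 2 + A 3) + (A 4 + A 5)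
  abel

/-- change of the elements -/
theorem Parts.map {β : Type*} {wt' : β → ℕ} (h : Parts wt m M) (g : α → β)
    (hwt : ∀ a, wt' (g a) = wt a) : Parts wt' m (M.map g) := by
  obtain ⟨A, rfl, hA⟩ := h
  refine ⟨fun i => (A i).map g, map_sum_fin A g, fun i j => ?_⟩
  rw [Multiset.map_map, Multiset.map_map]
  have e : (wt' ∘ g) = wt := funext hwt
  rw [e]
  exact hA i j

/-- change of the weight -/
theorem Parts.congr {wt' : α → ℕ} (h : Parts wt m M) (hwt : ∀ a ∈ M, wt' a = wt a) :
    Parts wt' m M := by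
  obtain ⟨A, rfl, hA⟩ := h
  have h1 : ∀ i, (A i).map wt' = (A i).map wt := fun i =>
    Multiset.map_congr rfl fun a ha => hwt a (Multiset.mem_sum.mpr ⟨i, mem_univ _, ha⟩)
  exact ⟨A, rfl, fun i j => by rw [h1, h1]; exact hA i j⟩

/-- the weight of the whole -/
theorem Parts.dvd (h : Parts wt m M) : m ∣ (M.map wt).sum := by
  obtain ⟨A, rfl, hA⟩ := h
  rcases Nat.eq_zero_or_pos m with rfl | hm
  · simp
  · have e : ((∑ i, A i).map wt).sum = ∑ i, ((A i).map wt).sum := by
      have key : ∀ s : Finset (Fin m), ((∑ i ∈ s, A i).map wt).sum = ∑ i ∈ s, ((A i).map wt).sum := by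
        intro s
        induction s using Finset.induction_on with
        | empty => rfl
        | insert a s ha ih =>
          rw [sum_insert ha, sum_insert ha, Multiset.map_add, Multiset.sum_add, ih]
      exact key univ
    rw [e, sum_congr rfl (fun i _ => hA i ⟨0, hm⟩), sum_const, card_univ, Fintype.card_fin,
      smul_eq_mul]
    exact dvd_mul_right _ _

end

/-- the explicit form, for two predicates `cub` (cubic) and `W` -/
structure Split4 {α : Type*} (wt f : α → ℕ) (cub : α → Prop) (r : ℕ) (W : Prop)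
    (M E M6 M3 M2 : Multiset α) : Prop where
  eq : M = E + (M6 + M3 + M2)
  cubE : ∀ v ∈ E, cub v
  cubN : ∀ v ∈ M6 + M3 + M2, ¬ cub v
  even : r = 2 → ∀ v ∈ E, Even (f v)
  two : r = 1 → Parts wt 2 E
  p6 : Parts wt 6 M6
  p3 : Parts wt 3 M3
  e3 : W ∨ ∀ v ∈ M3, Even (f v)
  p2 : Parts wt 2 M2
  d2 : ∀ v ∈ M2, 3 ∣ f v

/-- THE PARTITION CRITERION, explicit form -/
theorem parts_of_S3 {Ω : Type*} [Field Ω] {p q : ℕ} [Fact p.Prime] [CharP Ω p] (hp : 5 ≤ p)
    (hq : ∃ g, q = p ^ g) {α Q : Type*} [Fintype α] [Fintype Q] {T : α → Ω} {κ : α → Q} {f : Q → ℕ}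
    (hS : H52FD.S3 T) (hκ : Function.Surjective κ)
    (hconj : ∀ i j, κ i = κ j → ∃ k : ℕ, T j = T i ^ q ^ k)
    (hper : ∀ i, T i ^ q ^ f (κ i) = T i) (hf : ∀ P, 0 < f P) {cub : Q → Prop}
    (hcub : ∀ i, cub (κ i) ↔ T i ^ 2 - T i + 1 = 0) {W : Prop} (hW : (∃ i, T i = -1) → W) :
    ∃ E M6 M3 M2, Split4 (fun P => Nat.card {i // κ i = P}) f cub (q % 3) W
      (univ : Finset Q).val E M6 M3 M2 := by
  classical
  have h := div_of_S3 hp hq hS hκ hconj hper hf
  have hc1 : ∀ G : Multiset Q, (∀ P ∈ G, ∀ i, κ i = P → T i ^ 2 - T i + 1 = 0) →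
      ∀ P ∈ G, cub P := by
    intro G hG P hP
    obtain ⟨i, rfl⟩ := hκ P
    exact (hcub i).mpr (hG _ hP i rfl)
  have hc2 : ∀ G : Multiset Q, (∀ P ∈ G, ∀ i, κ i = P → T i ^ 2 - T i + 1 ≠ 0) →
      ∀ P ∈ G, ¬ cub P := by
    intro G hG P hP hcon
    obtain ⟨i, rfl⟩ := hκ P
    exact hG _ hP i rfl ((hcub i).mp hcon)
  generalize (univ : Finset Q).val = M0 at h ⊢
  induction h with
  | nil =>
    exact ⟨0, 0, 0, 0, ⟨rfl, fun v hv => absurd hv (Multiset.notMem_zero v),
      fun v hv => absurd hv (Multiset.notMem_zero v), fun _ v hv => absurd hv (Multiset.notMem_zero v),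
      fun _ => Parts.zero, Parts.zero, Parts.zero,
      Or.inr fun v hv => absurd hv (Multiset.notMem_zero v), Parts.zero,
      fun v hv => absurd hv (Multiset.notMem_zero v)⟩⟩
  | group m A M hK hA _ ih =>
    obtain ⟨E, M6, M3, M2, h1⟩ := ih
    have hP : Parts (fun P => Nat.card {i // κ i = P}) m (∑ i, A i) := ⟨A, rfl, hA⟩
    generalize hG : (∑ i, A i) = G at hK hP ⊢
    rcases hK with ⟨hr, ⟨rfl, h2, h3⟩ | ⟨rfl, h2⟩⟩ | ⟨hr, rfl | ⟨rfl, h2⟩ | ⟨rfl, h2⟩⟩
    · refine ⟨G + E, M6, M3, M2, ⟨by rw [h1.eq]; abel, fun v hv => ?_, h1.cubN, fun _ v hv => ?_,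
        fun h4 => ?_, h1.p6, h1.p3, h1.e3, h1.p2, h1.d2⟩⟩
      · rcases Multiset.mem_add.mp hv with h | h
        · exact hc1 _ hr v h
        · exact h1.cubE v h
      · rcases Multiset.mem_add.mp hv with h | h
        · exact h3 v h
        · exact h1.even h2 v h
      · omega
    · refine ⟨G + E, M6, M3, M2, ⟨by rw [h1.eq]; abel, fun v hv => ?_, h1.cubN, fun h4 => ?_,
        fun _ => hP.add (h1.two h2), h1.p6, h1.p3, h1.e3, h1.p2, h1.d2⟩⟩
      · rcases Multiset.mem_add.mp hv with h | h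
        · exact hc1 _ hr v h
        · exact h1.cubE v h
      · omega
    · refine ⟨E, G + M6, M3, M2, ⟨by rw [h1.eq]; abel, h1.cubE, fun v hv => ?_, h1.even, h1.two,
        hP.add h1.p6, h1.p3, h1.e3, h1.p2, h1.d2⟩⟩
      rw [add_assoc, add_assoc, Multiset.mem_add] at hv
      rcases hv with h | h
      · exact hc2 _ hr v h
      · exact h1.cubN v (by rw [add_assoc]; exact h)
    · refine ⟨E, M6, G + M3, M2, ⟨by rw [h1.eq]; abel, h1.cubE, fun v hv => ?_, h1.even, h1.two,
        h1.p6, hP.add h1.p3, ?_, h1.p2, h1.d2⟩⟩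
      · have e : M6 + (G + M3) + M2 = G + (M6 + M3 + M2) := by abel
        rw [e, Multiset.mem_add] at hv
        rcases hv with h | h
        · exact hc2 _ hr v h
        · exact h1.cubN v h
      · rcases h2 with h2 | h2
        · exact Or.inl (hW h2)
        · rcases h1.e3 with h3 | h3
          · exact Or.inl h3
          · right
            intro v hv
            rcases Multiset.mem_add.mp hv with h | h
            · exact h2 v h
            · exact h3 v h
    · refine ⟨E, M6, M3, G + M2, ⟨by rw [h1.eq]; abel, h1.cubE, fun v hv => ?_, h1.even, h1.two,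
        h1.p6, h1.p3, h1.e3, hP.add h1.p2, fun v hv => ?_⟩⟩
      · have e : M6 + M3 + (G + M2) = G + (M6 + M3 + M2) := by abel
        rw [e, Multiset.mem_add] at hv
        rcases hv with h | h
        · exact hc2 _ hr v h
        · exact h1.cubN v h
      · rcases Multiset.mem_add.mp hv with h | h
        · exact h2 v h
        · exact h1.d2 v h

/-- A multiset of cycle lengths splits: it consists of three groups `A`, `B`, `C`; `A` can be divided into
three parts of equal sum, `B` into two, the members of `B` being divisible by `3` if `r = 2`; the members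
of `C` are even, and `C` is empty unless `r = 2`. -/
def SplitsN (r : ℕ) (M : Multiset ℕ) : Prop :=
  ∃ A B C : Multiset ℕ, M = A + B + C ∧ Parts id 3 A ∧ Parts id 2 B ∧ (r = 2 → ∀ k ∈ B, 3 ∣ k) ∧
    (∀ k ∈ C, Even k) ∧ (r ≠ 2 → C = 0)

/-- the multiset of the degrees of unramified places splits -/
theorem Split4.type {α : Type*} {wt f : α → ℕ} {cub : α → Prop} {r : ℕ} {W : Prop}
    {M E M6 M3 M2 : Multiset α} (h : Split4 wt f cub r W M E M6 M3 M2) (hr : r = 1 ∨ r = 2)
    (hw : ∀ v ∈ M, wt v = f v) : SplitsN r (M.map f) := by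
  have h6 : Parts id 3 ((M6 + M3).map f) := by
    refine Parts.map ((h.p6.three_of_six.add h.p3).congr (wt' := f) fun a ha => ?_) f (fun _ => rfl)
    refine (hw a ?_).symm
    rw [h.eq]
    exact Multiset.mem_add.mpr (Or.inr (Multiset.mem_add.mpr (Or.inl ha)))
  have hM2 : ∀ a ∈ M2, a ∈ M := fun a ha => by
    rw [h.eq]
    exact Multiset.mem_add.mpr (Or.inr (Multiset.mem_add.mpr (Or.inr ha)))
  have hE : ∀ a ∈ E, a ∈ M := fun a ha => by
    rw [h.eq]
    exact Multiset.mem_add.mpr (Or.inl ha)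
  rcases hr with hr | hr
  · refine ⟨(M6 + M3).map f, (E + M2).map f, 0, ?_, h6, ?_, fun h2 => by omega, fun k hk =>
      absurd hk (Multiset.notMem_zero k), fun _ => rfl⟩
    · rw [h.eq]
      simp only [Multiset.map_add]
      abel
    · refine Parts.map (((h.two hr).add h.p2).congr (wt' := f) fun a ha => ?_) f (fun _ => rfl)
      rcases Multiset.mem_add.mp ha with ha | ha
      · exact (hw a (hE a ha)).symm
      · exact (hw a (hM2 a ha)).symm
  · refine ⟨(M6 + M3).map f, M2.map f, E.map f, ?_, h6, ?_, fun _ k hk => ?_, fun k hk => ?_,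
      fun h2 => absurd hr h2⟩
    · rw [h.eq]
      simp only [Multiset.map_add]
      abel
    · exact Parts.map (h.p2.congr (wt' := f) fun a ha => (hw a (hM2 a ha)).symm) f (fun _ => rfl)
    · obtain ⟨a, ha, rfl⟩ := Multiset.mem_map.mp hk
      exact h.d2 a ha
    · obtain ⟨a, ha, rfl⟩ := Multiset.mem_map.mp hk
      exact h.even hr a ha

end H85FD
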