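import Pool.Agent.H85.FD.Orbit

/-!
# Project FD: the partition criterion

`Splits r W s`: the multiset `s` of pairs (local degree `e f`, residue degree `f`) can be divided into
groups, each of which is divided into `n` parts with equal sums of the local degrees, where `n = 6`; or
`n = 3` and all residue degrees of the group are even (or `W` holds); or `n = 2` and all residue degrees
of the group are divisible by `3` (or `r = 1`); or `n = 1`, `r = 2` and all residue degrees are even.

`splits_of_S3`: a family `T : α → Ω` which is stable under the anharmonic group and which is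
distributed over the places `P ∈ Q` (`κ : α → Q`) with members over the same place conjugate under
Frobenius satisfies `Splits (p % 3) W`, where `W` holds if `-1` is a member.
-/

namespace H85FD

open Finset

/-- the sum of the local degrees -/
def fs (s : Multiset (ℕ × ℕ)) : ℕ := (s.map Prod.fst).sum

/-- the kind of a group divided into `n` parts -/
def Kind (r : ℕ) (W : Prop) (n : ℕ) (s : Multiset (ℕ × ℕ)) : Prop :=
  n = 6 ∨ (n = 3 ∧ (W ∨ ∀ k ∈ s, Even k.2)) ∨ (n = 2 ∧ (r = 1 ∨ ∀ k ∈ s, 3 ∣ k.2)) ∨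
    (n = 1 ∧ r = 2 ∧ ∀ k ∈ s, Even k.2)

/-- the partition criterion -/
inductive Splits (r : ℕ) (W : Prop) : Multiset (ℕ × ℕ) → Prop
  | nil : Splits r W 0
  | block (n : ℕ) (A : Fin n → Multiset (ℕ × ℕ)) (s : Multiset (ℕ × ℕ))
      (hk : Kind r W n (∑ i, A i)) (hs : ∀ i j, fs (A i) = fs (A j)) (h : Splits r W s) :
      Splits r W (∑ i, A i + s)

section

variable {Ω : Type*} [Field Ω] {p : ℕ}

/-- the Frobenius class of `x` -/
def cls (p : ℕ) (x : Ω) : Set Ω := {y | Cj p x y}

theorem cls_eq_iff {x y : Ω} (hx : Per p x) : cls p x = cls p y ↔ Cj p x y := by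
  constructor
  · intro h
    have : y ∈ cls p x := by
      rw [h]
      exact Cj.refl y
    exact this
  · intro h
    ext z
    exact ⟨fun hz => (h.symm hx).trans hz, fun hz => h.trans hz⟩

variable {α Q : Type*} [Fintype α] [Fintype Q]

/-- a family distributed over places -/
structure Fam (p : ℕ) (T : α → Ω) (κ : α → Q) (f : Q → ℕ) : Prop where
  s3 : H52FD.S3 T
  surj : Function.Surjective κ
  conj : ∀ i j, κ i = κ j → ∃ k : ℕ, T j = T i ^ p ^ k
  per : ∀ i, T i ^ p ^ f (κ i) = T i
  fpos : ∀ P, 0 < f P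

variable {T : α → Ω} {κ : α → Q} {f : Q → ℕ}

omit [Fintype α] [Fintype Q] in
theorem Fam.perT (h : Fam p T κ f) (i : α) : Per p (T i) := ⟨f (κ i), h.fpos _, h.per i⟩

open Classical in
/-- the number of members over the place `P` -/
noncomputable def fib (κ : α → Q) (P : Q) : ℕ := (univ.filter (fun i => κ i = P)).card

/-- the class of a place -/
noncomputable def cl (h : Fam p T κ f) (P : Q) : Set Ω := cls p (T (Function.surjInv h.surj P))

omit [Fintype α] [Fintype Q] in
theorem cl_apply (h : Fam p T κ f) (i : α) : cl h (κ i) = cls p (T i) := by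
  unfold cl
  rw [cls_eq_iff (h.perT _)]
  exact h.conj _ _ (Function.surjInv_eq h.surj (κ i))

open Classical in
/-- the multiset of the degrees of the places whose class is in `C` -/
noncomputable def Dm (h : Fam p T κ f) (C : Finset (Set Ω)) : Multiset (ℕ × ℕ) :=
  (univ.filter (fun P => cl h P ∈ C)).val.map (fun P => (fib κ P, f P))

theorem Dm_empty (h : Fam p T κ f) : Dm h ∅ = 0 := by
  classical
  unfold Dm
  simp

open Classical in
theorem Dm_union (h : Fam p T κ f) {C C' : Finset (Set Ω)} (hd : Disjoint C C') :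
    Dm h (C ∪ C') = Dm h C + Dm h C' := by
  unfold Dm
  rw [← Multiset.map_add]
  congr 1
  have e : univ.filter (fun P => cl h P ∈ C ∪ C') =
      (univ.filter (fun P => cl h P ∈ C)).disjUnion (univ.filter (fun P => cl h P ∈ C')) (by
        rw [Finset.disjoint_left]
        intro P hP hP'
        rw [mem_filter] at hP hP'
        exact (Finset.disjoint_left.mp hd) hP.2 hP'.2) := by
    ext P
    simp
  rw [e]
  rfl

open Classical in
theorem Dm_image (h : Fam p T κ f) {n : ℕ} (X : Fin n → Set Ω) (hX : Function.Injective X) :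
    Dm h (univ.image X) = ∑ j, Dm h {X j} := by
  have key : ∀ s : Finset (Fin n), Dm h (s.image X) = ∑ j ∈ s, Dm h {X j} := by
    intro s
    induction s using Finset.induction_on with
    | empty => rw [image_empty, Dm_empty, sum_empty]
    | insert a s ha ih =>
      rw [sum_insert ha, ← ih, image_insert, insert_eq, Dm_union]
      rw [disjoint_singleton_left, mem_image]
      rintro ⟨b, hb, hba⟩
      exact ha (hX hba ▸ hb)
  exact key univ

open Classical in
/-- the weight of a class -/
theorem fs_Dm (h : Fam p T κ f) (X : Set Ω) :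
    fs (Dm h {X}) = (univ.filter (fun i => cls p (T i) = X)).card := by
  unfold fs Dm
  rw [Multiset.map_map]
  show ∑ P ∈ univ.filter (fun P => cl h P ∈ ({X} : Finset (Set Ω))), fib κ P = _
  rw [card_eq_sum_card_fiberwise (f := κ) (t := univ.filter (fun P => cl h P ∈ ({X} : Finset (Set Ω))))]
  · refine sum_congr rfl fun P hP => ?_
    unfold fib
    congr 1
    ext i
    simp only [mem_filter, mem_univ, true_and, mem_singleton] at hP ⊢
    constructor
    · intro hi
      exact ⟨by rw [← cl_apply h, hi, hP], hi⟩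
    · exact fun hi => hi.2
  · intro i hi
    simp only [coe_filter, mem_univ, true_and, Set.mem_setOf_eq, mem_singleton] at hi ⊢
    rw [cl_apply h, hi]

theorem mem_Dm (h : Fam p T κ f) {X : Set Ω} {k : ℕ × ℕ} (hk : k ∈ Dm h {X}) :
    ∃ P, cl h P = X ∧ k.2 = f P := by
  classical
  unfold Dm at hk
  rw [Multiset.mem_map] at hk
  obtain ⟨P, hP, rfl⟩ := hk
  rw [Finset.mem_val, mem_filter, mem_singleton] at hP
  exact ⟨P, hP.2, rfl⟩

variable [Fact p.Prime] [CharP Ω p]

open Classical in
theorem weight_inv (h : Fam p T κ f) {x : Ω} (hx : Per p x) :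
    fs (Dm h {cls p x⁻¹}) = fs (Dm h {cls p x}) := by
  rw [fs_Dm, fs_Dm]
  obtain ⟨σ, hσ⟩ := h.s3.1
  have hσ' : ∀ v, T (σ v) = (T v)⁻¹ := fun v => eq_inv_of_mul_eq_one_left (hσ v)
  refine card_bij' (fun i _ => σ.symm i) (fun i _ => σ i) ?_ ?_ ?_ ?_
  · intro i hi
    simp only [mem_filter, mem_univ, true_and] at hi ⊢
    have h1 := hσ' (σ.symm i)
    rw [Equiv.apply_symm_apply] at h1
    rw [h1, cls_eq_iff (h.perT _).inv] at hi
    rw [cls_eq_iff (h.perT _)]
    have h2 := hi.inv
    rwa [inv_inv, inv_inv] at h2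
  · intro i hi
    simp only [mem_filter, mem_univ, true_and] at hi ⊢
    rw [cls_eq_iff (h.perT _)] at hi
    rw [hσ', cls_eq_iff (h.perT _).inv]
    exact hi.inv
  · intro i _
    simp
  · intro i _
    simp

open Classical in
theorem weight_sub (h : Fam p T κ f) {x : Ω} (hx : Per p x) :
    fs (Dm h {cls p (1 - x)}) = fs (Dm h {cls p x}) := by
  rw [fs_Dm, fs_Dm]
  obtain ⟨σ, hσ'⟩ := h.s3.2
  refine card_bij' (fun i _ => σ.symm i) (fun i _ => σ i) ?_ ?_ ?_ ?_
  · intro i hi
    simp only [mem_filter, mem_univ, true_and] at hi ⊢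
    have h1 := hσ' (σ.symm i)
    rw [Equiv.apply_symm_apply] at h1
    rw [h1, cls_eq_iff (h.perT _).sub] at hi
    rw [cls_eq_iff (h.perT _)]
    have h2 := hi.sub
    rwa [sub_sub_cancel, sub_sub_cancel] at h2
  · intro i hi
    simp only [mem_filter, mem_univ, true_and] at hi ⊢
    rw [cls_eq_iff (h.perT _)] at hi
    rw [hσ', cls_eq_iff (h.perT _).sub]
    exact hi.sub
  · intro i _
    simp
  · intro i _
    simp

theorem weight_rch (h : Fam p T κ f) {x y : Ω} (hx : Per p x) (hxy : Rch x y) :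
    fs (Dm h {cls p y}) = fs (Dm h {cls p x}) := by
  induction hxy with
  | refl => rfl
  | inv hy ih => rw [weight_inv h (hy.per hx), ih]
  | sub hy ih => rw [weight_sub h (hy.per hx), ih]

/-- invariance of a set of classes -/
structure Inv (p : ℕ) (T : α → Ω) (C : Finset (Set Ω)) : Prop where
  mem : ∀ X ∈ C, ∃ i, X = cls p (T i)
  inv : ∀ x, Per p x → cls p x ∈ C → cls p x⁻¹ ∈ C
  sub : ∀ x, Per p x → cls p x ∈ C → cls p (1 - x) ∈ C

omit [Fintype α] in
theorem Inv.rch {C : Finset (Set Ω)} (hC : Inv p T C) {x y : Ω} (hx : Per p x)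
    (hxC : cls p x ∈ C) (hxy : Rch x y) : cls p y ∈ C := by
  induction hxy with
  | refl => exact hxC
  | inv hy ih => exact hC.inv _ (hy.per hx) ih
  | sub hy ih => exact hC.sub _ (hy.per hx) ih

theorem splits_aux (hp : 5 ≤ p) (h : Fam p T κ f) {W : Prop} (hW : (∃ i, T i = -1) → W) :
    ∀ (N : ℕ) (C : Finset (Set Ω)), C.card ≤ N → Inv p T C → Splits (p % 3) W (Dm h C) := by
  classical
  intro N
  induction N with
  | zero =>
    intro C hN _
    have : C = ∅ := by
      rw [← card_eq_zero]
      omega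
    rw [this, Dm_empty]
    exact Splits.nil
  | succ N ih =>
    intro C hN hC
    rcases C.eq_empty_or_nonempty with hE | ⟨X, hX⟩
    · rw [hE, Dm_empty]
      exact Splits.nil
    obtain ⟨i, rfl⟩ := hC.mem X hX
    have hx := h.perT i
    obtain ⟨n, y, hb⟩ := orbit hp (h.s3.ne_zero i) (h.s3.ne_one i) hx
    have hyP : ∀ j, Per p (y j) := fun j => (hb.rch j).per hx
    have hyC : ∀ j, cls p (y j) ∈ C := fun j => hC.rch hx hX (hb.rch j)
    have hinj : Function.Injective (fun j => cls p (y j)) := by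
      intro j j' hj
      exact hb.dist j j' ((cls_eq_iff (hyP j)).mp hj)
    set G : Finset (Set Ω) := univ.image (fun j => cls p (y j)) with hG
    have hGC : G ⊆ C := by
      intro Y hY
      obtain ⟨j, -, rfl⟩ := mem_image.mp hY
      exact hyC j
    -- `x` lies in one of the classes of the block
    have hn : 0 < n := by
      rcases hb.kind with h1 | h1 | h1 | h1
      · omega
      · omega
      · omega
      · omega
    have hcard : (C \ G).card ≤ N := by
      have h1 : G.card = n := by
        rw [hG, card_image_of_injective _ hinj, card_univ, Fintype.card_fin]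
      have h2 := card_sdiff_add_card_eq_card hGC
      omega
    have hInv : Inv p T (C \ G) := by
      refine ⟨fun Y hY => hC.mem Y (mem_sdiff.mp hY).1, ?_, ?_⟩
      · intro z hz hzC
        rw [mem_sdiff] at hzC ⊢
        refine ⟨hC.inv z hz hzC.1, fun hzG => hzC.2 ?_⟩
        obtain ⟨j, -, hj⟩ := mem_image.mp hzG
        have h1 := ((cls_eq_iff (hyP j)).mp hj)
        -- `Cj (y j) z⁻¹`
        obtain ⟨j', hj'⟩ := hb.inv j
        have h2 : Cj p (y j') z := by
          have h3 := h1.inv
          rw [inv_inv] at h3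
          exact (hj'.symm (hyP j).inv).trans h3
        exact mem_image.mpr ⟨j', mem_univ _, (cls_eq_iff (hyP j')).mpr h2⟩
      · intro z hz hzC
        rw [mem_sdiff] at hzC ⊢
        refine ⟨hC.sub z hz hzC.1, fun hzG => hzC.2 ?_⟩
        obtain ⟨j, -, hj⟩ := mem_image.mp hzG
        have h1 := ((cls_eq_iff (hyP j)).mp hj)
        obtain ⟨j', hj'⟩ := hb.sub j
        have h2 : Cj p (y j') z := by
          have h3 := h1.sub
          rw [sub_sub_cancel] at h3
          exact (hj'.symm (hyP j).sub).trans h3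
        exact mem_image.mpr ⟨j', mem_univ _, (cls_eq_iff (hyP j')).mpr h2⟩
    have hsplit : Dm h C = ∑ j, Dm h {cls p (y j)} + Dm h (C \ G) := by
      rw [← Dm_image h (fun j => cls p (y j)) hinj, ← hG, ← Dm_union h disjoint_sdiff]
      congr 1
      exact (union_sdiff_of_subset hGC).symm
    -- degrees of the places of the block
    have hdeg : ∀ k ∈ ∑ j, Dm h {cls p (y j)}, ∃ j, y j ^ p ^ k.2 = y j := by
      intro k hk
      obtain ⟨j, -, hj⟩ := Multiset.mem_sum.mp hk
      obtain ⟨P, hP, hkP⟩ := mem_Dm h hj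
      refine ⟨j, ?_⟩
      obtain ⟨i', rfl⟩ := h.surj P
      rw [cl_apply h, cls_eq_iff (h.perT _)] at hP
      obtain ⟨m, hm⟩ := hP
      rw [hkP, hm, ← pow_mul, mul_comm, pow_mul, h.per]
    rw [hsplit]
    refine Splits.block n _ _ ?_ ?_ (ih _ hcard hInv)
    · rcases hb.kind with h1 | ⟨h1, h2 | h2⟩ | ⟨h1, h2 | h2⟩ | ⟨h1, h2, h3⟩
      · exact Or.inl h1
      · refine Or.inr (Or.inl ⟨h1, Or.inl (hW ?_)⟩)
        obtain ⟨j, hj⟩ := h2
        obtain ⟨i', hi'⟩ := hC.mem _ (hyC j)
        refine ⟨i', ?_⟩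
        obtain ⟨m, hm⟩ := (cls_eq_iff (hyP j)).mp hi'
        rw [hm, hj]
        have hodd : Odd (p ^ m) := by
          apply Odd.pow
          rcases (Fact.out : p.Prime).eq_two_or_odd' with h4 | h4
          · omega
          · exact h4
        exact hodd.neg_one_pow
      · refine Or.inr (Or.inl ⟨h1, Or.inr fun k hk => ?_⟩)
        obtain ⟨j, hj⟩ := hdeg k hk
        exact h2 j _ hj
      · exact Or.inr (Or.inr (Or.inl ⟨h1, Or.inl h2⟩))
      · refine Or.inr (Or.inr (Or.inl ⟨h1, Or.inr fun k hk => ?_⟩))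
        obtain ⟨j, hj⟩ := hdeg k hk
        exact h2 j _ hj
      · refine Or.inr (Or.inr (Or.inr ⟨h1, h2, fun k hk => ?_⟩))
        obtain ⟨j, hj⟩ := hdeg k hk
        exact h3 j _ hj
    · intro j j'
      rw [weight_rch h hx (hb.rch j), weight_rch h hx (hb.rch j')]

end

/-- THE PARTITION CRITERION, abstract form -/
theorem splits_of_S3 {Ω : Type*} [Field Ω] {p : ℕ} [Fact p.Prime] [CharP Ω p] (hp : 5 ≤ p)
    {α Q : Type*} [Fintype α] [Fintype Q] {T : α → Ω} {κ : α → Q} {f : Q → ℕ}
    (hS : H52FD.S3 T) (hκ : Function.Surjective κ)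
    (hconj : ∀ i j, κ i = κ j → ∃ k : ℕ, T j = T i ^ p ^ k)
    (hper : ∀ i, T i ^ p ^ f (κ i) = T i) (hf : ∀ P, 0 < f P) {W : Prop}
    (hW : (∃ i, T i = -1) → W) :
    Splits (p % 3) W ((univ : Finset Q).val.map fun P => (Nat.card {i // κ i = P}, f P)) := by
  classical
  have h : Fam p T κ f := ⟨hS, hκ, hconj, hper, hf⟩
  have hmain := splits_aux hp h hW _ (univ.image fun i => cls p (T i)) le_rfl
    ⟨fun X hX => by
      obtain ⟨i, -, rfl⟩ := mem_image.mp hX
      exact ⟨i, rfl⟩, fun x hx hxC => by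
      obtain ⟨i, -, hi⟩ := mem_image.mp hxC
      obtain ⟨σ, hσ⟩ := hS.1
      refine mem_image.mpr ⟨σ i, mem_univ _, ?_⟩
      rw [eq_inv_of_mul_eq_one_left (hσ i), cls_eq_iff (h.perT i).inv]
      exact ((cls_eq_iff (h.perT i)).mp hi).inv, fun x hx hxC => by
      obtain ⟨i, -, hi⟩ := mem_image.mp hxC
      obtain ⟨σ, hσ⟩ := hS.2
      refine mem_image.mpr ⟨σ i, mem_univ _, ?_⟩
      rw [hσ i, cls_eq_iff (h.perT i).sub]
      exact ((cls_eq_iff (h.perT i)).mp hi).sub⟩
  have e : Dm h (univ.image fun i => cls p (T i)) =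
      (univ : Finset Q).val.map fun P => (Nat.card {i // κ i = P}, f P) := by
    unfold Dm
    have e1 : univ.filter (fun P => cl h P ∈ univ.image fun i => cls p (T i)) = univ := by
      rw [filter_true_of_mem]
      intro P _
      obtain ⟨i, rfl⟩ := hκ P
      rw [cl_apply h]
      exact mem_image.mpr ⟨i, mem_univ _, rfl⟩
    rw [e1]
    refine Multiset.map_congr rfl fun P _ => ?_
    rw [Nat.card_eq_fintype_card, Fintype.card_subtype]
    rfl
  rw [← e]
  exact hmain

end H85FD
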