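import Pool.Agent.H85.FD.Adm

/-!
# The partition criterion, second form (helper31's interface)
-/

namespace H85FD

open Finset

theorem splits_of_S3' {Ω : Type*} [Field Ω] {p : ℕ} [Fact p.Prime] [CharP Ω p] (hp : 5 ≤ p)
    {α Q : Type*} [Fintype α] [Fintype Q] [DecidableEq Q] {T : α → Ω}
    (hS : H52FD.S3 T) (κ : α → Q) (hκ : Function.Surjective κ) (f : Q → ℕ) (hf : ∀ P, 0 < f P)
    (h1 : ∀ i j, κ i = κ j → ∃ k : ℕ, T j = T i ^ p ^ k)
    (h2 : ∀ i, T i ^ p ^ f (κ i) = T i) (W : Prop) (hW : (∃ i, T i = -1) → W) :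
    Splits (p % 3) W ((univ : Finset Q).val.map fun P =>
      ((univ.filter fun i => κ i = P).card, f P)) := by
  have h := splits_of_S3 hp hS hκ h1 h2 hf hW
  have e : ((univ : Finset Q).val.map fun P => (Nat.card {i // κ i = P}, f P)) =
      ((univ : Finset Q).val.map fun P => ((univ.filter fun i => κ i = P).card, f P)) := by
    refine Multiset.map_congr rfl fun P _ => ?_
    rw [Nat.card_eq_fintype_card, Fintype.card_subtype]
  rwa [e] at h

end H85FD
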