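import Mathlib

/-!
# Division of a multiset into groups and parts
-/

namespace H85FD

open Finset

/-- `Div wt K M`: the multiset `M` can be divided into groups `G`, and each group `G` into `m` parts
`A 0, ..., A (m - 1)` of equal total weight, such that `K m G` holds. -/
inductive Div {α : Type*} (wt : α → ℕ) (K : ℕ → Multiset α → Prop) : Multiset α → Prop
  | nil : Div wt K 0
  | group (m : ℕ) (A : Fin m → Multiset α) (M : Multiset α) (hK : K m (∑ i, A i))
      (hA : ∀ i j, ((A i).map wt).sum = ((A j).map wt).sum) (h : Div wt K M) :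
      Div wt K (∑ i, A i + M)

theorem map_sum_fin {α β : Type*} {m : ℕ} (A : Fin m → Multiset α) (g : α → β) :
    (∑ i, A i).map g = ∑ i, (A i).map g := by
  have key : ∀ s : Finset (Fin m), (∑ i ∈ s, A i).map g = ∑ i ∈ s, (A i).map g := by
    intro s
    induction s using Finset.induction_on with
    | empty => rfl
    | insert a s ha ih => rw [sum_insert ha, sum_insert ha, Multiset.map_add, ih]
  exact key univ

/-- change of the elements -/
theorem Div.map {α β : Type*} {wt : α → ℕ} {K : ℕ → Multiset α → Prop} {wt' : β → ℕ}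
    {K' : ℕ → Multiset β → Prop} {M : Multiset α} (h : Div wt K M) (g : α → β)
    (hwt : ∀ a, wt' (g a) = wt a) (hK : ∀ m G, K m G → K' m (G.map g)) :
    Div wt' K' (M.map g) := by
  induction h with
  | nil => exact Div.nil
  | group m A M hk hA _ ih =>
    rw [Multiset.map_add, map_sum_fin]
    refine Div.group m (fun i => (A i).map g) (M.map g) ?_ (fun i j => ?_) ih
    · rw [← map_sum_fin]
      exact hK m _ hk
    · rw [Multiset.map_map, Multiset.map_map]
      have e : (wt' ∘ g) = wt := funext hwt
      rw [e]
      exact hA i j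

/-- change of the weight and of the kinds, elementwise in the multiset -/
theorem Div.mono {α : Type*} {wt wt' : α → ℕ} {K K' : ℕ → Multiset α → Prop} {M : Multiset α}
    (h : Div wt K M) (hwt : ∀ a ∈ M, wt' a = wt a)
    (hK : ∀ m G, (∀ a ∈ G, a ∈ M) → K m G → K' m G) : Div wt' K' M := by
  induction h with
  | nil => exact Div.nil
  | group m A M hk hA _ ih =>
    have h1 : ∀ i, (A i).map wt' = (A i).map wt := fun i => by
      refine Multiset.map_congr rfl fun a ha => ?_
      exact hwt a (Multiset.mem_add.mpr (Or.inl (Multiset.mem_sum.mpr ⟨i, mem_univ _, ha⟩)))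
    refine Div.group m A M ?_ (fun i j => ?_) (ih (fun a ha => hwt a
      (Multiset.mem_add.mpr (Or.inr ha))) fun m G hG hk' => hK m G (fun a ha =>
      Multiset.mem_add.mpr (Or.inr (hG a ha))) hk')
    · exact hK m _ (fun a ha => Multiset.mem_add.mpr (Or.inl ha)) hk
    · rw [h1, h1]
      exact hA i j

end H85FD
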