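import Pool.Agent.H85.FD.Adm
import Pool.Agent.H85.FD.OrbitC
import Pool.Agent.H85.FD.SplitDef

/-!
# The partition criterion for the places themselves, the cubic places separated

`div_of_S3`: a family `T : α → Ω` which is stable under the anharmonic group and is distributed over the
places `P ∈ Q`, members over the same place being conjugate under `x ↦ x ^ q`: the multiset of the places
can be divided into groups and parts of equal weight, of the kinds `KindP`.
-/

namespace H85FD

open Finset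

section

variable {Ω : Type*} [Field Ω] {p q : ℕ} {α Q : Type*} [Fintype α] [Fintype Q]
  {T : α → Ω} {κ : α → Q} {f : Q → ℕ}

/-- the kinds of groups of places -/
def KindP (q : ℕ) (T : α → Ω) (κ : α → Q) (f : Q → ℕ) (m : ℕ) (G : Multiset Q) : Prop :=
  ((∀ P ∈ G, ∀ i, κ i = P → T i ^ 2 - T i + 1 = 0) ∧
    ((m = 1 ∧ q % 3 = 2 ∧ ∀ P ∈ G, Even (f P)) ∨ (m = 2 ∧ q % 3 = 1))) ∨
  ((∀ P ∈ G, ∀ i, κ i = P → T i ^ 2 - T i + 1 ≠ 0) ∧
    (m = 6 ∨ (m = 3 ∧ ((∃ i, T i = -1) ∨ ∀ P ∈ G, Even (f P))) ∨ (m = 2 ∧ ∀ P ∈ G, 3 ∣ f P)))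

/-- the weight of a multiset of places -/
noncomputable def ws (κ : α → Q) (M : Multiset Q) : ℕ := (M.map (fib κ)).sum

open Classical in
/-- the multiset of the places whose class is in `C` -/
noncomputable def Dp (h : Fam q T κ f) (C : Finset (Set Ω)) : Multiset Q :=
  (univ.filter (fun P => cl h P ∈ C)).val

theorem Dp_empty (h : Fam q T κ f) : Dp h ∅ = 0 := by
  classical
  unfold Dp
  simp

open Classical in
theorem Dp_union (h : Fam q T κ f) {C C' : Finset (Set Ω)} (hd : Disjoint C C') :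
    Dp h (C ∪ C') = Dp h C + Dp h C' := by
  unfold Dp
  have e : univ.filter (fun P => cl h P ∈ C ∪ C') =
      (univ.filter (fun P => cl h P ∈ C)).disjUnion (univ.filter (fun P => cl h P ∈ C')) (by
        rw [Finset.disjoint_left]
        intro P hP hP'
        rw [mem_filter] at hP hP'
        exact (Finset.disjoint_left.mp hd) hP.2 hP'.2) := by
    ext P
    simp
  rw [e]
  rfl

open Classical in
theorem Dp_image (h : Fam q T κ f) {n : ℕ} (X : Fin n → Set Ω) (hX : Function.Injective X) :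
    Dp h (univ.image X) = ∑ j, Dp h {X j} := by
  have key : ∀ s : Finset (Fin n), Dp h (s.image X) = ∑ j ∈ s, Dp h {X j} := by
    intro s
    induction s using Finset.induction_on with
    | empty => rw [image_empty, Dp_empty, sum_empty]
    | insert a s ha ih =>
      rw [sum_insert ha, ← ih, image_insert, insert_eq, Dp_union]
      rw [disjoint_singleton_left, mem_image]
      rintro ⟨b, hb, hba⟩
      exact ha (hX hba ▸ hb)
  exact key univ

open Classical in
/-- the weight of a class -/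
theorem ws_Dp (h : Fam q T κ f) (X : Set Ω) :
    ws κ (Dp h {X}) = (univ.filter (fun i => cls q (T i) = X)).card := by
  unfold ws Dp
  show ∑ P ∈ univ.filter (fun P => cl h P ∈ ({X} : Finset (Set Ω))), fib κ P = _
  rw [card_eq_sum_card_fiberwise (f := κ) (t := univ.filter (fun P => cl h P ∈ ({X} : Finset (Set Ω))))]
  · refine sum_congr rfl fun P hP => ?_
    unfold fib
    congr 1
    ext i
    simp only [mem_filter, mem_univ, true_and, mem_singleton] at hP ⊢
    constructor
    · intro hi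
      exact ⟨by rw [← cl_apply h, hi, hP], hi⟩
    · exact fun hi => hi.2
  · intro i hi
    simp only [coe_filter, mem_univ, true_and, Set.mem_ofPred_eq, mem_singleton] at hi ⊢
    rw [cl_apply h, hi]

theorem mem_Dp (h : Fam q T κ f) {X : Set Ω} {P : Q} (hP : P ∈ Dp h {X}) : cl h P = X := by
  classical
  unfold Dp at hP
  rw [Finset.mem_val, mem_filter, mem_singleton] at hP
  exact hP.2

/-- roots of `X² - X + 1` are preserved by Frobenius -/
theorem root_cj [Fact p.Prime] [CharP Ω p] (hq : ∃ g, q = p ^ g) {x y : Ω} (h : Cj q x y) :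
    y ^ 2 - y + 1 = 0 ↔ x ^ 2 - x + 1 = 0 := by
  obtain ⟨g, rfl⟩ := hq
  obtain ⟨k, rfl⟩ := h
  have e0 : (p ^ g) ^ k = p ^ (g * k) := (pow_mul p g k).symm
  rw [e0]
  have e : (x ^ p ^ (g * k)) ^ 2 - x ^ p ^ (g * k) + 1 = (x ^ 2 - x + 1) ^ p ^ (g * k) := by
    have h1 := map_add (iterateFrobenius Ω p (g * k)) (x ^ 2 - x) 1
    have h2 := map_sub (iterateFrobenius Ω p (g * k)) (x ^ 2) x
    simp only [iterateFrobenius_def, one_pow] at h1 h2
    rw [h1, h2, ← pow_mul, ← pow_mul, mul_comm 2]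
  rw [e]
  constructor
  · intro h
    exact pow_eq_zero_iff (pow_pos (Nat.Prime.pos Fact.out) _).ne' |>.mp h
  · intro h
    rw [h, zero_pow (pow_pos (Nat.Prime.pos Fact.out) _).ne']

open Classical in
theorem weight_inv_c (h : Fam q T κ f) {x : Ω} (_ : Per q x) :
    ws κ (Dp h {cls q x⁻¹}) = ws κ (Dp h {cls q x}) := by
  rw [ws_Dp, ws_Dp]
  obtain ⟨σ, hσ⟩ := h.s3.1
  have hσ' : ∀ v, T (σ v) = (T v)⁻¹ := fun v => eq_inv_of_mul_eq_one_left (hσ v)
  refine card_bij' (fun i _ => σ.symm i) (fun i _ => σ i) ?_ ?_ ?_ ?_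
  · intro i hi
    simp only [mem_filter, mem_univ, true_and] at hi ⊢
    have h1 := hσ' (σ.symm i)
    rw [Equiv.apply_symm_apply] at h1
    rw [h1, cls_eq_iff (h.perT _).inv] at hi
    rw [cls_eq_iff (h.perT _)]
    have h2 := hi.inv
    rwa [inv_inv, inv_inv] at h2
  · intro i hi
    simp only [mem_filter, mem_univ, true_and] at hi ⊢
    rw [cls_eq_iff (h.perT _)] at hi
    rw [hσ', cls_eq_iff (h.perT _).inv]
    exact hi.inv
  · intro i _
    simp
  · intro i _
    simp

variable [Fact p.Prime] [CharP Ω p]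

open Classical in
theorem weight_sub_c (hq : ∃ g, q = p ^ g) (h : Fam q T κ f) {x : Ω} (_ : Per q x) :
    ws κ (Dp h {cls q (1 - x)}) = ws κ (Dp h {cls q x}) := by
  rw [ws_Dp, ws_Dp]
  obtain ⟨σ, hσ'⟩ := h.s3.2
  refine card_bij' (fun i _ => σ.symm i) (fun i _ => σ i) ?_ ?_ ?_ ?_
  · intro i hi
    simp only [mem_filter, mem_univ, true_and] at hi ⊢
    have h1 := hσ' (σ.symm i)
    rw [Equiv.apply_symm_apply] at h1
    rw [h1, cls_eq_iff ((h.perT _).subq hq)] at hi
    rw [cls_eq_iff (h.perT _)]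
    have h2 := hi.subq hq
    rwa [sub_sub_cancel, sub_sub_cancel] at h2
  · intro i hi
    simp only [mem_filter, mem_univ, true_and] at hi ⊢
    rw [cls_eq_iff (h.perT _)] at hi
    rw [hσ', cls_eq_iff ((h.perT _).subq hq)]
    exact hi.subq hq
  · intro i _
    simp
  · intro i _
    simp

theorem weight_rch_c (hq : ∃ g, q = p ^ g) (h : Fam q T κ f) {x y : Ω} (hx : Per q x)
    (hxy : Rch x y) :
    ws κ (Dp h {cls q y}) = ws κ (Dp h {cls q x}) := by
  induction hxy with
  | refl => rfl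
  | inv hy ih => rw [weight_inv_c h (hy.perq hq hx), ih]
  | sub hy ih => rw [weight_sub_c hq h (hy.perq hq hx), ih]

omit [Fintype α] in
theorem Inv.rchc (hq : ∃ g, q = p ^ g) {C : Finset (Set Ω)} (hC : Inv q T C) {x y : Ω}
    (hx : Per q x)
    (hxC : cls q x ∈ C) (hxy : Rch x y) : cls q y ∈ C := by
  induction hxy with
  | refl => exact hxC
  | inv hy ih => exact hC.inv _ (hy.perq hq hx) ih
  | sub hy ih => exact hC.sub _ (hy.perq hq hx) ih

theorem div_aux (hp : 5 ≤ p) (hq : ∃ g, q = p ^ g) (h : Fam q T κ f) :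
    ∀ (N : ℕ) (C : Finset (Set Ω)), C.card ≤ N → Inv q T C →
      Div (fib κ) (KindP q T κ f) (Dp h C) := by
  classical
  intro N
  induction N with
  | zero =>
    intro C hN _
    have : C = ∅ := by
      rw [← card_eq_zero]
      omega
    rw [this, Dp_empty]
    exact Div.nil
  | succ N ih =>
    intro C hN hC
    rcases C.eq_empty_or_nonempty with hE | ⟨X, hX⟩
    · rw [hE, Dp_empty]
      exact Div.nil
    obtain ⟨i, rfl⟩ := hC.mem X hX
    have hx := h.perT i
    obtain ⟨n, y, hb⟩ := orbit_c hp hq (h.s3.ne_zero i) (h.s3.ne_one i) hx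
    have hyP : ∀ j, Per q (y j) := fun j => (hb.rch j).perq hq hx
    have hyC : ∀ j, cls q (y j) ∈ C := fun j => hC.rchc hq hx hX (hb.rch j)
    have hinj : Function.Injective (fun j => cls q (y j)) := by
      intro j j' hj
      exact hb.dist j j' ((cls_eq_iff (hyP j)).mp hj)
    set G : Finset (Set Ω) := univ.image (fun j => cls q (y j)) with hG
    have hGC : G ⊆ C := by
      intro Y hY
      obtain ⟨j, -, rfl⟩ := mem_image.mp hY
      exact hyC j
    -- `x` lies in one of the classes of the block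
    have hn : 0 < n := by
      rcases hb.kind with ⟨-, h1 | h1⟩ | ⟨-, h1 | h1 | h1⟩
      · omega
      · omega
      · omega
      · omega
      · omega
    have hcard : (C \ G).card ≤ N := by
      have h1 : G.card = n := by
        rw [hG, card_image_of_injective _ hinj, card_univ, Fintype.card_fin]
      have h2 := card_sdiff_add_card_eq_card hGC
      omega
    have hInv : Inv q T (C \ G) := by
      refine ⟨fun Y hY => hC.mem Y (mem_sdiff.mp hY).1, ?_, ?_⟩
      · intro z hz hzC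
        rw [mem_sdiff] at hzC ⊢
        refine ⟨hC.inv z hz hzC.1, fun hzG => hzC.2 ?_⟩
        obtain ⟨j, -, hj⟩ := mem_image.mp hzG
        have h1 := ((cls_eq_iff (hyP j)).mp hj)
        -- `Cj (y j) z⁻¹`
        obtain ⟨j', hj'⟩ := hb.inv j
        have h2 : Cj q (y j') z := by
          have h3 := h1.inv
          rw [inv_inv] at h3
          exact (hj'.symm (hyP j).inv).trans h3
        exact mem_image.mpr ⟨j', mem_univ _, (cls_eq_iff (hyP j')).mpr h2⟩
      · intro z hz hzC
        rw [mem_sdiff] at hzC ⊢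
        refine ⟨hC.sub z hz hzC.1, fun hzG => hzC.2 ?_⟩
        obtain ⟨j, -, hj⟩ := mem_image.mp hzG
        have h1 := ((cls_eq_iff (hyP j)).mp hj)
        obtain ⟨j', hj'⟩ := hb.sub j
        have h2 : Cj q (y j') z := by
          have h3 := h1.subq hq
          rw [sub_sub_cancel] at h3
          exact (hj'.symm ((hyP j).subq hq)).trans h3
        exact mem_image.mpr ⟨j', mem_univ _, (cls_eq_iff (hyP j')).mpr h2⟩
    have hsplit : Dp h C = ∑ j, Dp h {cls q (y j)} + Dp h (C \ G) := by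
      rw [← Dp_image h (fun j => cls q (y j)) hinj, ← hG, ← Dp_union h disjoint_sdiff]
      congr 1
      exact (union_sdiff_of_subset hGC).symm
    -- degrees of the places of the block
    have hdeg : ∀ P ∈ ∑ j, Dp h {cls q (y j)}, ∃ j, y j ^ q ^ f P = y j := by
      intro P hP
      obtain ⟨j, -, hj⟩ := Multiset.mem_sum.mp hP
      have hP := mem_Dp h hj
      refine ⟨j, ?_⟩
      obtain ⟨i', rfl⟩ := h.surj P
      rw [cl_apply h, cls_eq_iff (h.perT _)] at hP
      obtain ⟨m, hm⟩ := hP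
      rw [hm, ← pow_mul, mul_comm, pow_mul, h.per]
    -- roots
    have hroot : ∀ P ∈ ∑ j, Dp h {cls q (y j)}, ∀ i', κ i' = P →
        (T i ^ 2 - T i + 1 = 0 ↔ T i' ^ 2 - T i' + 1 = 0) := by
      intro P hP i' hi'
      obtain ⟨j, -, hj⟩ := Multiset.mem_sum.mp hP
      have hP := mem_Dp h hj
      rw [← hi', cl_apply h, cls_eq_iff (h.perT _)] at hP
      rw [(hb.rch j).root_iff (h.s3.ne_zero i) (h.s3.ne_one i)]
      exact root_cj hq hP
    rw [hsplit]
    refine Div.group n _ _ ?_ ?_ (ih _ hcard hInv)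
    · rcases hb.kind with ⟨hr, ⟨h1, h2, h3⟩ | ⟨h1, h2⟩⟩ | ⟨hr, h1 | ⟨h1, h2⟩ | ⟨h1, h2⟩⟩
      · refine Or.inl ⟨fun P hP i' hi' => (hroot P hP i' hi').mp hr, Or.inl ⟨h1, h2, fun P hP => ?_⟩⟩
        obtain ⟨j, hj⟩ := hdeg P hP
        exact h3 j _ hj
      · exact Or.inl ⟨fun P hP i' hi' => (hroot P hP i' hi').mp hr, Or.inr ⟨h1, h2⟩⟩
      · exact Or.inr ⟨fun P hP i' hi' h4 => hr ((hroot P hP i' hi').mpr h4), Or.inl h1⟩
      · refine Or.inr ⟨fun P hP i' hi' h4 => hr ((hroot P hP i' hi').mpr h4),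
          Or.inr (Or.inl ⟨h1, ?_⟩)⟩
        rcases h2 with ⟨j, hj⟩ | h2
        · left
          obtain ⟨i', hi'⟩ := hC.mem _ (hyC j)
          refine ⟨i', ?_⟩
          obtain ⟨m, hm⟩ := (cls_eq_iff (hyP j)).mp hi'
          rw [hm, hj]
          exact ((odd_q hp hq).pow).neg_one_pow
        · right
          intro P hP
          obtain ⟨j, hj⟩ := hdeg P hP
          exact h2 j _ hj
      · refine Or.inr ⟨fun P hP i' hi' h4 => hr ((hroot P hP i' hi').mpr h4),
          Or.inr (Or.inr ⟨h1, fun P hP => ?_⟩)⟩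
        obtain ⟨j, hj⟩ := hdeg P hP
        exact h2 j _ hj
    · intro j j'
      have e1 := weight_rch_c hq h hx (hb.rch j)
      have e2 := weight_rch_c hq h hx (hb.rch j')
      exact e1.trans e2.symm

end

/-- THE PARTITION CRITERION for the places -/
theorem div_of_S3 {Ω : Type*} [Field Ω] {p q : ℕ} [Fact p.Prime] [CharP Ω p] (hp : 5 ≤ p)
    (hq : ∃ g, q = p ^ g) {α Q : Type*} [Fintype α] [Fintype Q] {T : α → Ω} {κ : α → Q} {f : Q → ℕ}
    (hS : H52FD.S3 T) (hκ : Function.Surjective κ)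
    (hconj : ∀ i j, κ i = κ j → ∃ k : ℕ, T j = T i ^ q ^ k)
    (hper : ∀ i, T i ^ q ^ f (κ i) = T i) (hf : ∀ P, 0 < f P) :
    Div (fun P => Nat.card {i // κ i = P}) (KindP q T κ f) (univ : Finset Q).val := by
  classical
  have h : Fam q T κ f := ⟨hS, hκ, hconj, hper, hf⟩
  have hmain := div_aux hp hq h _ (univ.image fun i => cls q (T i)) le_rfl
    ⟨fun X hX => by
      obtain ⟨i, -, rfl⟩ := mem_image.mp hX
      exact ⟨i, rfl⟩, fun x hx hxC => by
      obtain ⟨i, -, hi⟩ := mem_image.mp hxC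
      obtain ⟨σ, hσ⟩ := hS.1
      refine mem_image.mpr ⟨σ i, mem_univ _, ?_⟩
      rw [eq_inv_of_mul_eq_one_left (hσ i), cls_eq_iff (h.perT i).inv]
      exact ((cls_eq_iff (h.perT i)).mp hi).inv, fun x hx hxC => by
      obtain ⟨i, -, hi⟩ := mem_image.mp hxC
      obtain ⟨σ, hσ⟩ := hS.2
      refine mem_image.mpr ⟨σ i, mem_univ _, ?_⟩
      rw [hσ i, cls_eq_iff ((h.perT i).subq hq)]
      exact ((cls_eq_iff (h.perT i)).mp hi).subq hq⟩
  have e : Dp h (univ.image fun i => cls q (T i)) = (univ : Finset Q).val := by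
    unfold Dp
    congr 1
    rw [filter_true_of_mem]
    intro P _
    obtain ⟨i, rfl⟩ := hκ P
    rw [cl_apply h]
    exact mem_image.mpr ⟨i, mem_univ _, rfl⟩
  rw [e] at hmain
  refine hmain.mono (fun P _ => ?_) fun m G _ hG => hG
  rw [Nat.card_eq_fintype_card, Fintype.card_subtype]
  rfl

end H85FD
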