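import Pool.Agent.H85.FD.Adm

/-!
# Consequences of the partition criterion (pure combinatorics)

* `Splits.exists_block`: every element lies in a block, and the rest splits again.
* `Splits.even`: without `W` the sum of the local degrees is even.
* `Splits.not_three`: without `W`, if `3` does not divide the sum, then `r = 1`, or `r = 2` and some
  residue degree is even.
* `Splits.big`: an element with more than half of the sum has even residue degree, and `r = 2`.
* `Splits.six_le`: `r ≠ 1`, no `W`, an element with residue degree prime to `6`: at least six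
  elements.
* `Splits.mono`: monotone in `W`.
-/

namespace H85FD

open Finset

theorem fs_zero : fs 0 = 0 := rfl

theorem fs_add (s t : Multiset (ℕ × ℕ)) : fs (s + t) = fs s + fs t := by
  unfold fs
  rw [Multiset.map_add, Multiset.sum_add]

theorem fs_sum {n : ℕ} (A : Fin n → Multiset (ℕ × ℕ)) : fs (∑ i, A i) = ∑ i, fs (A i) := by
  have key : ∀ s : Finset (Fin n), fs (∑ i ∈ s, A i) = ∑ i ∈ s, fs (A i) := by
    intro s
    induction s using Finset.induction_on with
    | empty => rfl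
    | insert a s ha ih => rw [sum_insert ha, sum_insert ha, fs_add, ih]
  exact key univ

theorem fs_block {n : ℕ} (A : Fin n → Multiset (ℕ × ℕ)) (h : ∀ i j, fs (A i) = fs (A j))
    (i : Fin n) : fs (∑ i, A i) = n * fs (A i) := by
  rw [fs_sum, sum_congr rfl (fun j _ => h j i), sum_const, card_univ, Fintype.card_fin,
    smul_eq_mul]

theorem le_fs {s : Multiset (ℕ × ℕ)} {k : ℕ × ℕ} (hk : k ∈ s) : k.1 ≤ fs s := by
  unfold fs
  exact Multiset.single_le_sum (fun x _ => Nat.zero_le x) _ (Multiset.mem_map_of_mem _ hk)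

theorem fs_dvd {s : Multiset (ℕ × ℕ)} {m : ℕ} (h : ∀ k ∈ s, m ∣ k.1) : m ∣ fs s := by
  unfold fs
  apply Multiset.dvd_sum
  intro a ha
  obtain ⟨k, hk, rfl⟩ := Multiset.mem_map.mp ha
  exact h k hk

theorem card_block {n : ℕ} (A : Fin n → Multiset (ℕ × ℕ)) :
    Multiset.card (∑ i, A i) = ∑ i, Multiset.card (A i) := by
  rw [Multiset.card_sum]

theorem Kind.mono {r n : ℕ} {W W' : Prop} (hW : W → W') {s : Multiset (ℕ × ℕ)}
    (h : Kind r W n s) : Kind r W' n s := by
  rcases h with h | ⟨h, h' | h'⟩ | h | h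
  · exact Or.inl h
  · exact Or.inr (Or.inl ⟨h, Or.inl (hW h')⟩)
  · exact Or.inr (Or.inl ⟨h, Or.inr h'⟩)
  · exact Or.inr (Or.inr (Or.inl h))
  · exact Or.inr (Or.inr (Or.inr h))

theorem Splits.mono {r : ℕ} {W W' : Prop} (hW : W → W') {s : Multiset (ℕ × ℕ)}
    (h : Splits r W s) : Splits r W' s := by
  induction h with
  | nil => exact Splits.nil
  | block n A s hk hs _ ih => exact Splits.block n A s (hk.mono hW) hs ih

/-- every element lies in a block -/
theorem Splits.exists_block {r : ℕ} {W : Prop} {s : Multiset (ℕ × ℕ)} (h : Splits r W s)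
    {k : ℕ × ℕ} (hk : k ∈ s) : ∃ (n : ℕ) (A : Fin n → Multiset (ℕ × ℕ)) (t : Multiset (ℕ × ℕ))
      (i : Fin n), s = ∑ i, A i + t ∧ k ∈ A i ∧ Kind r W n (∑ i, A i) ∧
      (∀ i j, fs (A i) = fs (A j)) ∧ Splits r W t := by
  induction h with
  | nil => exact absurd hk (Multiset.notMem_zero k)
  | block n A s hkd hs h ih =>
    rcases Multiset.mem_add.mp hk with hk' | hk'
    · obtain ⟨i, -, hi⟩ := Multiset.mem_sum.mp hk'
      exact ⟨n, A, s, i, rfl, hi, hkd, hs, h⟩
    · obtain ⟨n', A', t, i, e, hi, hkd', hs', ht⟩ := ih hk'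
      refine ⟨n', A', ∑ i, A i + t, i, ?_, hi, hkd', hs', Splits.block n A t hkd hs ht⟩
      rw [e]
      abel

/-- the sum is even if `p` is not a Wieferich prime -/
theorem Splits.even {r : ℕ} {W : Prop} (hW : ¬ W) {s : Multiset (ℕ × ℕ)} (h : Splits r W s)
    (hd : ∀ k ∈ s, k.2 ∣ k.1) : Even (fs s) := by
  induction h with
  | nil => exact even_iff_two_dvd.mpr (dvd_zero 2)
  | block n A s hk hs _ ih =>
    rw [fs_add]
    refine Even.add ?_ (ih fun k hk' => hd k (Multiset.mem_add.mpr (Or.inr hk')))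
    have hd' : ∀ k ∈ ∑ i, A i, k.2 ∣ k.1 := fun k hk' => hd k (Multiset.mem_add.mpr (Or.inl hk'))
    have heven : (∀ k ∈ ∑ i, A i, Even k.2) → Even (fs (∑ i, A i)) := fun he =>
      even_iff_two_dvd.mpr (fs_dvd fun k hk' => (even_iff_two_dvd.mp (he k hk')).trans (hd' k hk'))
    rcases hk with h1 | ⟨h1, h2 | h2⟩ | ⟨h1, -⟩ | ⟨h1, -, h2⟩
    · subst h1
      rw [fs_block A hs 0]
      exact Even.mul_right (by decide) _
    · exact absurd h2 hW
    · exact heven h2
    · subst h1
      rw [fs_block A hs 0]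
      exact Even.mul_right (by decide) _
    · exact heven h2

/-- `3` does not divide the sum -/
theorem Splits.not_three {r : ℕ} {W : Prop} {s : Multiset (ℕ × ℕ)} (h : Splits r W s)
    (hd : ∀ k ∈ s, k.2 ∣ k.1) (h3 : ¬ 3 ∣ fs s) :
    r = 1 ∨ (r = 2 ∧ ∃ k ∈ s, 0 < k.1 ∧ Even k.2) := by
  induction h with
  | nil => exact absurd (dvd_zero 3) h3
  | block n A s hk hs _ ih =>
    rw [fs_add] at h3
    by_cases h4 : 3 ∣ fs s
    · have h5 : ¬ 3 ∣ fs (∑ i, A i) := fun h6 => h3 (Dvd.dvd.add h6 h4)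
      rcases hk with h1 | ⟨h1, -⟩ | ⟨h1, h2 | h2⟩ | ⟨h1, h2, h6⟩
      · subst h1
        rw [fs_block A hs 0] at h5
        exact absurd (Dvd.dvd.mul_right (by decide) _) h5
      · subst h1
        rw [fs_block A hs 0] at h5
        exact absurd (Dvd.dvd.mul_right (by decide) _) h5
      · exact Or.inl h2
      · exact absurd (fs_dvd fun k hk' => (h2 k hk').trans
          (hd k (Multiset.mem_add.mpr (Or.inl hk')))) h5
      · refine Or.inr ⟨h2, ?_⟩
        by_contra hcon
        push Not at hcon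
        apply h5
        apply fs_dvd
        intro k hk'
        rcases Nat.eq_zero_or_pos k.1 with h7 | h7
        · rw [h7]
          exact dvd_zero 3
        · exact absurd (h6 k hk') (hcon k (Multiset.mem_add.mpr (Or.inl hk')) h7)
    · rcases ih (fun k hk' => hd k (Multiset.mem_add.mpr (Or.inr hk'))) h4 with h5 | ⟨h5, k, hk', h6⟩
      · exact Or.inl h5
      · exact Or.inr ⟨h5, k, Multiset.mem_add.mpr (Or.inr hk'), h6⟩

/-- an element with more than half of the sum -/
theorem Splits.big {r : ℕ} {W : Prop} {s : Multiset (ℕ × ℕ)} (h : Splits r W s) {k : ℕ × ℕ}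
    (hk : k ∈ s) (hbig : fs s < 2 * k.1) : r = 2 ∧ Even k.2 := by
  obtain ⟨n, A, t, i, e, hi, hkd, hs, -⟩ := h.exists_block hk
  have h1 : n * fs (A i) ≤ fs s := by
    rw [e, fs_add, fs_block A hs i]
    omega
  have h2 := le_fs hi
  have hn : n < 2 := by
    by_contra hn
    have : 2 * k.1 ≤ n * fs (A i) := Nat.mul_le_mul (by omega) h2
    omega
  rcases hkd with h3 | ⟨h3, -⟩ | ⟨h3, -⟩ | ⟨-, h3, h4⟩
  · omega
  · omega
  · omega
  · exact ⟨h3, h4 k (Multiset.mem_sum.mpr ⟨i, mem_univ _, hi⟩)⟩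

/-- an element of degree prime to `6`: at least six elements -/
theorem Splits.six_le {r : ℕ} {W : Prop} (hr : r ≠ 1) (hW : ¬ W) {s : Multiset (ℕ × ℕ)}
    (h : Splits r W s) {k : ℕ × ℕ} (hk : k ∈ s) (h0 : 0 < k.1) (h2 : ¬ Even k.2)
    (h3 : ¬ 3 ∣ k.2) : 6 ≤ Multiset.card s := by
  obtain ⟨n, A, t, i, e, hi, hkd, hs, -⟩ := h.exists_block hk
  have hmem : k ∈ ∑ i, A i := Multiset.mem_sum.mpr ⟨i, mem_univ _, hi⟩
  rcases hkd with h4 | ⟨-, h4 | h4⟩ | ⟨-, h4 | h4⟩ | ⟨-, -, h4⟩
  · subst h4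
    rw [e, Multiset.card_add, card_block]
    have h5 : ∀ j, 1 ≤ Multiset.card (A j) := by
      intro j
      rw [Nat.one_le_iff_ne_zero, Ne, Multiset.card_eq_zero]
      intro h6
      have h7 := hs i j
      rw [h6, fs_zero] at h7
      have := le_fs hi
      omega
    have h6 : ∑ _j : Fin 6, 1 ≤ ∑ j, Multiset.card (A j) := sum_le_sum fun j _ => h5 j
    simp only [sum_const, card_univ, Fintype.card_fin, smul_eq_mul, mul_one] at h6
    omega
  · exact absurd h4 hW
  · exact absurd (h4 k hmem) h2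
  · exact absurd h4 hr
  · exact absurd (h4 k hmem) h3
  · exact absurd (h4 k hmem) h2

/-- `n` odd and not Wieferich: impossible -/
theorem Splits.wief_of_odd {r : ℕ} {W : Prop} {s : Multiset (ℕ × ℕ)} (h : Splits r W s)
    (hd : ∀ k ∈ s, k.2 ∣ k.1) (hodd : Odd (fs s)) : W := by
  by_contra hW
  exact (Nat.not_even_iff_odd.mpr hodd) (h.even hW hd)

end H85FD
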