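import Pool.Agent.H85.FD.Orbit

/-!
# The orbit lemma for a power `q` of `p` (relative version: Frobenius `x ↦ x ^ q`)
-/

namespace H85FD

open Finset

variable {Ω : Type*} [Field Ω]

section charq

variable {p q : ℕ} [Fact p.Prime] [CharP Ω p]

/-- the powers of `q` act additively -/
theorem sub_pow_q (hq : ∃ g, q = p ^ g) (x y : Ω) (k : ℕ) :
    (x - y) ^ q ^ k = x ^ q ^ k - y ^ q ^ k := by
  obtain ⟨g, rfl⟩ := hq
  rw [← pow_mul, sub_pow_char_pow]

theorem odd_q (hp : 5 ≤ p) (hq : ∃ g, q = p ^ g) : Odd q := by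
  obtain ⟨g, rfl⟩ := hq
  apply Odd.pow
  rcases (Fact.out : p.Prime).eq_two_or_odd' with h | h
  · omega
  · exact h

omit [Fact p.Prime] in
theorem Cj.subq [Fact p.Prime] (hq : ∃ g, q = p ^ g) {x y : Ω} (h : Cj q x y) :
    Cj q (1 - x) (1 - y) := by
  obtain ⟨k, rfl⟩ := h
  exact ⟨k, by rw [sub_pow_q hq, one_pow]⟩

theorem Per.subq (hq : ∃ g, q = p ^ g) {x : Ω} (h : Per q x) : Per q (1 - x) := by
  obtain ⟨f, hf, hfx⟩ := h
  exact ⟨f, hf, by rw [sub_pow_q hq, one_pow, hfx]⟩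

theorem Rch.perq (hq : ∃ g, q = p ^ g) {x y : Ω} (h : Rch x y) (hx : Per q x) : Per q y := by
  induction h with
  | refl => exact hx
  | inv _ ih => exact ih.inv
  | sub _ ih => exact ih.subq hq

theorem three_q (hp : 5 ≤ p) (hq : ∃ g, q = p ^ g) : q % 3 ≠ 0 := by
  obtain ⟨g, rfl⟩ := hq
  intro h
  have h1 : 3 ∣ p ^ g := Nat.dvd_of_mod_eq_zero h
  have h2 := Nat.prime_three.dvd_of_dvd_pow h1
  rcases (Nat.dvd_prime (Fact.out : p.Prime)).1 h2 with h | h <;> omega

theorem root_frob_q (hp : 5 ≤ p) (hq : ∃ g, q = p ^ g) {s : Ω} (hs : s ^ 2 - s + 1 = 0) :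
    (q % 3 = 1 → s ^ q = s) ∧ (q % 3 = 2 → s ^ q = s⁻¹) := by
  have h0 : s ≠ 0 := by
    rintro rfl
    norm_num at hs
  have h6 := (H52FD.root_pow hs).2
  have hodd : q % 2 = 1 := Nat.odd_iff.mp (odd_q hp hq)
  constructor
  · intro h
    have h1 : q % 6 = 1 := by omega
    have : s ^ q = s ^ (6 * (q / 6) + 1) := by
      congr 1
      omega
    rw [this, pow_succ, pow_mul, h6, one_pow, one_mul]
  · intro h
    have h1 : q % 6 = 5 := by omega
    have : s ^ q = s ^ (6 * (q / 6) + 5) := by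
      congr 1
      omega
    rw [this, pow_add, pow_mul, h6, one_pow, one_mul]
    apply eq_inv_of_mul_eq_one_left
    rw [← h6]
    ring

theorem orb_core_q (hp : 5 ≤ p) (hq : ∃ g, q = p ^ g) {s : Ω} (h0 : s ≠ 0) (h1 : s ≠ 1)
    {i j : ℕ} (hi : s⁻¹ = s ^ q ^ i) (hj : 1 - s = s ^ q ^ j) :
    s ^ 2 - s + 1 = 0 ∧ q % 3 = 2 ∧ ∀ f, s ^ q ^ f = s → Even f := by
  have e1 : 1 - s⁻¹ = (1 - s) ^ q ^ i := by
    rw [hi, sub_pow_q hq, one_pow]
  have e2 : (1 - s)⁻¹ = (s⁻¹) ^ q ^ j := by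
    rw [hj, inv_pow]
  have e3 : 1 - s⁻¹ = (1 - s)⁻¹ := by
    rw [e1, e2, hi, hj, ← pow_mul, ← pow_mul, mul_comm]
  have h1' : 1 - s ≠ 0 := sub_ne_zero.mpr (Ne.symm h1)
  have hs : s ^ 2 - s + 1 = 0 := by
    field_simp at e3
    linear_combination -e3
  have hne := H52FD.root_ne_inv hp hs
  have hmod : q % 3 = 2 := by
    have h3 : q % 3 = 0 ∨ q % 3 = 1 ∨ q % 3 = 2 := by omega
    rcases h3 with h | h | h
    · exact absurd h (three_q hp hq)
    · exfalso
      have hf := (root_frob_q hp hq hs).1 h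
      have hk : ∀ k, s ^ q ^ k = s := by
        intro k
        induction k with
        | zero => simp
        | succ k ih => rw [pow_succ, pow_mul, ih, hf]
      rw [hk] at hi
      exact hne hi
    · exact h
  refine ⟨hs, hmod, fun f hf => ?_⟩
  have hfr := (root_frob_q hp hq hs).2 hmod
  have hk : ∀ k, (Even k → s ^ q ^ k = s) ∧ (¬ Even k → s ^ q ^ k = s⁻¹) := by
    intro k
    induction k with
    | zero => simp
    | succ k ih =>
      rw [Nat.even_add_one]
      constructor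
      · intro h
        rw [pow_succ, pow_mul, ih.2 h, inv_pow, hfr, inv_inv]
      · intro h
        rw [not_not] at h
        rw [pow_succ, pow_mul, ih.1 h, hfr]
  by_contra hne'
  rw [(hk f).2 hne'] at hf
  exact hne hf

end charq

section blocks

variable {p q : ℕ} [Fact p.Prime] [CharP Ω p]

/-- roots of `X² - X + 1` -/
theorem blk_root_q (hp : 5 ≤ p) (hq : ∃ g, q = p ^ g) {x : Ω} (h0 : x ≠ 0) (h1 : x ≠ 1) (hx : Per q x)
    (hr : x ^ 2 - x + 1 = 0) : ∃ n y, Blk q x n y := by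
  have hinv : x⁻¹ = 1 - x := by
    field_simp
    linear_combination hr
  have hne := H52FD.root_ne_inv hp hr
  obtain ⟨hf1, hf2⟩ := root_frob_q hp hq hr
  have hpp : p.Prime := Fact.out
  have h3 : q % 3 = 0 ∨ q % 3 = 1 ∨ q % 3 = 2 := by omega
  rcases h3 with h3 | h3 | h3
  · exact absurd h3 (three_q hp hq)
  · refine ⟨2, ![x, 1 - x], ?_, ?_, ?_, ?_, ?_⟩
    · intro j
      fin_cases j
      · exact Rch.refl
      · exact Rch.refl.sub
    · apply dist_of_lt
      · intro j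
        fin_cases j
        · exact hx
        · exact hx.subq hq
      · intro i j hij
        fin_cases i <;> fin_cases j <;> simp at hij
        rintro ⟨k, hk⟩
        have hk' : 1 - x = x ^ q ^ k := hk
        have hall : ∀ k, x ^ q ^ k = x := by
          intro k
          induction k with
          | zero => simp
          | succ k ih => rw [pow_succ, pow_mul, ih, hf1 h3]
        rw [hall, ← hinv] at hk'
        exact hne hk'
    · intro j
      fin_cases j
      · exact ⟨1, Cj.of_eq hinv⟩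
      · refine ⟨0, Cj.of_eq ?_⟩
        show (1 - x)⁻¹ = x
        rw [← hinv, inv_inv]
    · intro j
      fin_cases j
      · exact ⟨1, Cj.refl _⟩
      · refine ⟨0, Cj.of_eq ?_⟩
        show 1 - (1 - x) = x
        ring
    · exact Or.inr (Or.inr (Or.inl ⟨rfl, Or.inl h3⟩))
  · have hi : x⁻¹ = x ^ q ^ 1 := by rw [pow_one, hf2 h3]
    have hj : 1 - x = x ^ q ^ 1 := by rw [← hinv, hi]
    have hev := (orb_core_q hp hq h0 h1 hi hj).2.2
    refine ⟨1, ![x], ?_, ?_, ?_, ?_, ?_⟩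
    · intro j
      fin_cases j
      exact Rch.refl
    · intro i j _
      exact Subsingleton.elim i j
    · intro j
      fin_cases j
      exact ⟨0, Cj.symm hx ⟨1, hi⟩⟩
    · intro j
      fin_cases j
      exact ⟨0, Cj.symm hx ⟨1, hj⟩⟩
    · refine Or.inr (Or.inr (Or.inr ⟨rfl, h3, ?_⟩))
      intro j f hf
      fin_cases j
      exact hev f hf

theorem natCast_pow_q (hq : ∃ g, q = p ^ g) (n k : ℕ) : ((n : ℕ) : Ω) ^ q ^ k = n := by
  obtain ⟨g, rfl⟩ := hq
  rw [← pow_mul]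
  exact natCast_pow_p n (g * k)

/-- the values `-1, 2, 1/2` -/
theorem blk_wief_q (hp : 5 ≤ p) (hq : ∃ g, q = p ^ g) {x : Ω} (hx : x = -1) :
    ∃ n y, Blk q x n y := by
  have h3 : (3 : Ω) ≠ 0 := H52FD.three_ne hp
  have h2 : (2 : Ω) ≠ 0 := by
    intro h
    have h' : ((2 : ℕ) : Ω) = 0 := by exact_mod_cast h
    rw [CharP.cast_eq_zero_iff Ω p] at h'
    have := Nat.le_of_dvd (by norm_num) h'
    omega
  have e2 : ∀ k, (2 : Ω) ^ q ^ k = 2 := fun k => by
    have := natCast_pow_q (Ω := Ω) hq 2 k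
    exact_mod_cast this
  have e1 : ∀ k, (-1 : Ω) ^ q ^ k = -1 := fun k => by
    rw [((odd_q hp hq).pow).neg_one_pow]
  have e3 : ∀ k, (2⁻¹ : Ω) ^ q ^ k = 2⁻¹ := fun k => by rw [inv_pow, e2]
  have hPer : ∀ z : Ω, z ^ q ^ 1 = z → Per q z := fun z hz => ⟨1, one_pos, hz⟩
  subst hx
  have s2 : (1 : Ω) - -1 = 2 := by norm_num
  refine ⟨3, ![-1, 2, 2⁻¹], ?_, ?_, ?_, ?_, ?_⟩
  · intro j
    fin_cases j
    · exact Rch.refl
    · have := (Rch.refl (x := (-1 : Ω))).sub
      rw [s2] at this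
      exact this
    · have := (Rch.refl (x := (-1 : Ω))).sub.inv
      rw [s2] at this
      exact this
  · apply dist_of_lt
    · intro j
      fin_cases j
      · exact hPer _ (e1 1)
      · exact hPer _ (e2 1)
      · exact hPer _ (e3 1)
    · intro i j hij
      fin_cases i <;> fin_cases j <;> simp at hij
      · rintro ⟨k, hk⟩
        have hk' : (2 : Ω) = (-1) ^ q ^ k := hk
        rw [e1] at hk'
        apply h3
        linear_combination hk'
      · rintro ⟨k, hk⟩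
        have hk' : (2⁻¹ : Ω) = (-1) ^ q ^ k := hk
        rw [e1] at hk'
        field_simp at hk'
        apply h3
        linear_combination hk'
      · rintro ⟨k, hk⟩
        have hk' : (2⁻¹ : Ω) = 2 ^ q ^ k := hk
        rw [e2] at hk'
        field_simp at hk'
        apply h3
        linear_combination -hk'
  · intro j
    fin_cases j
    · refine ⟨0, Cj.of_eq ?_⟩
      show (-1 : Ω)⁻¹ = -1
      norm_num
    · exact ⟨2, Cj.refl _⟩
    · refine ⟨1, Cj.of_eq ?_⟩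
      show (2⁻¹ : Ω)⁻¹ = 2
      rw [inv_inv]
  · intro j
    fin_cases j
    · exact ⟨1, Cj.of_eq s2⟩
    · refine ⟨0, Cj.of_eq ?_⟩
      show (1 : Ω) - 2 = -1
      norm_num
    · refine ⟨2, Cj.of_eq ?_⟩
      show (1 : Ω) - 2⁻¹ = 2⁻¹
      field_simp
      norm_num
  · exact Or.inr (Or.inl ⟨rfl, Or.inl ⟨0, rfl⟩⟩)

/-- `1/x` and `1 - x` conjugate to `x`: a root -/
theorem root_of_AB_q (hp : 5 ≤ p) (hq : ∃ g, q = p ^ g) {x : Ω} (h0 : x ≠ 0) (h1 : x ≠ 1) (hA : Cj q x x⁻¹)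
    (hB : Cj q x (1 - x)) : x ^ 2 - x + 1 = 0 := by
  obtain ⟨i, hi⟩ := hA
  obtain ⟨j, hj⟩ := hB
  exact (orb_core_q hp hq h0 h1 hi hj).1

theorem root_inv_q {x : Ω} (h0 : x ≠ 0) (h : x⁻¹ ^ 2 - x⁻¹ + 1 = 0) : x ^ 2 - x + 1 = 0 := by
  field_simp at h
  linear_combination h

/-- an involution -/
theorem blk_A_q (hp : 5 ≤ p) (hq : ∃ g, q = p ^ g) {x : Ω} (h0 : x ≠ 0) (h1 : x ≠ 1) (hx : Per q x)
    (hr : x ^ 2 - x + 1 ≠ 0) (hA : Cj q x x⁻¹) : ∃ n y, Blk q x n y := by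
  by_cases hfix : x⁻¹ = x
  · have hxx : x * x = 1 := by
      nth_rewrite 1 [← hfix]
      exact inv_mul_cancel₀ h0
    rcases mul_self_eq_one_iff.mp hxx with h | h
    · exact absurd h h1
    · exact blk_wief_q hp hq h
  -- the even degree
  have hev : ∀ f, x ^ q ^ f = x → Even f := by
    intro f hf
    obtain ⟨k, hk⟩ := hA
    have h2 : (fun y : Ω => y⁻¹)^[2] x = x := by simp
    exact even_iff_two_dvd.mpr (period Nat.prime_two (fun y => y⁻¹)
      (fun y m => (inv_pow y _).symm) h2 hk hfix hf)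
  have hsubne : (1 - x) ≠ 0 := sub_ne_zero.mpr (Ne.symm h1)
  refine ⟨3, ![x, 1 - x, (1 - x)⁻¹], ?_, ?_, ?_, ?_, ?_⟩
  · intro j
    fin_cases j
    · exact Rch.refl
    · exact Rch.refl.sub
    · exact Rch.refl.sub.inv
  · apply dist_of_lt
    · intro j
      fin_cases j
      · exact hx
      · exact hx.subq hq
      · exact (hx.subq hq).inv
    · intro i j hij
      fin_cases i <;> fin_cases j <;> simp at hij
      · intro hc
        exact hr (root_of_AB_q hp hq h0 h1 hA hc)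
      · intro hc
        have hc' : Cj q x (1 - x)⁻¹ := hc
        have h2 := hc'.inv
        rw [inv_inv] at h2
        exact hr (root_of_AB_q hp hq h0 h1 hA (hA.trans h2))
      · intro hc
        have hc' : Cj q (1 - x) (1 - x)⁻¹ := hc
        have h2 := hc'.subq hq
        rw [sub_sub_cancel, bab h0 h1] at h2
        have h3 := h2.inv
        rw [inv_inv] at h3
        -- `z = x⁻¹`: `Cj z (1 - z)`, `Cj z z⁻¹`
        have h4 : Cj q x⁻¹ (x⁻¹)⁻¹ := by
          rw [inv_inv]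
          exact hA.symm hx
        have h5 := root_of_AB_q hp hq (inv_ne_zero h0) (fun h => h1 (inv_eq_one.mp h)) h4 h3
        exact hr (root_inv h0 h5)
  · intro j
    fin_cases j
    · exact ⟨0, hA.symm hx⟩
    · exact ⟨2, Cj.refl _⟩
    · refine ⟨1, Cj.of_eq ?_⟩
      show ((1 - x)⁻¹)⁻¹ = 1 - x
      rw [inv_inv]
  · intro j
    fin_cases j
    · exact ⟨1, Cj.refl _⟩
    · refine ⟨0, Cj.of_eq ?_⟩
      show 1 - (1 - x) = x
      ring
    · refine ⟨2, ?_⟩
      show Cj q (1 - (1 - x)⁻¹) (1 - x)⁻¹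
      rw [bab h0 h1]
      exact ((hA.symm hx).subq hq).inv
  · refine Or.inr (Or.inl ⟨rfl, Or.inr ?_⟩)
    intro j f hf
    fin_cases j
    · exact hev f hf
    · have hf' : (1 - x) ^ q ^ f = 1 - x := hf
      rw [sub_pow_q hq, one_pow] at hf'
      exact hev f (by linear_combination -hf')
    · have hf' : (1 - x)⁻¹ ^ q ^ f = (1 - x)⁻¹ := hf
      rw [inv_pow, inv_inj, sub_pow_q hq, one_pow] at hf'
      exact hev f (by linear_combination -hf')

/-- a rotation -/
theorem blk_R_q (hp : 5 ≤ p) (hq : ∃ g, q = p ^ g) {x : Ω} (h0 : x ≠ 0) (h1 : x ≠ 1) (hx : Per q x)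
    (hr : x ^ 2 - x + 1 ≠ 0) (hR : Cj q x (1 - x⁻¹)) : ∃ n y, Blk q x n y := by
  have hx1 : x - 1 ≠ 0 := sub_ne_zero.mpr h1
  have hsub1 : 1 - x ≠ 0 := sub_ne_zero.mpr (Ne.symm h1)
  have hRR : 1 - (1 - x⁻¹)⁻¹ = (1 - x)⁻¹ := bcx h0 h1
  -- the other rotation
  have hR' : Cj q x (1 - x)⁻¹ := by
    have h2 := hR.inv.subq hq
    rw [hRR] at h2
    exact hR.trans h2
  have hcomm : ∀ (y : Ω) (k : ℕ), 1 - (y ^ q ^ k)⁻¹ = (1 - y⁻¹) ^ q ^ k := by
    intro y k
    rw [sub_pow_q hq, one_pow, inv_pow]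
  have hfix : 1 - x⁻¹ ≠ x := by
    intro h
    apply hr
    field_simp at h
    linear_combination -h
  have h3x : (fun y : Ω => 1 - y⁻¹)^[3] x = x := by
    show 1 - (1 - (1 - x⁻¹)⁻¹)⁻¹ = x
    rw [hRR, inv_inv]
    ring
  have hdiv : ∀ f, x ^ q ^ f = x → 3 ∣ f := by
    intro f hf
    obtain ⟨k, hk⟩ := hR
    exact period Nat.prime_three (fun y => 1 - y⁻¹) hcomm h3x hk hfix hf
  refine ⟨2, ![x, x⁻¹], ?_, ?_, ?_, ?_, ?_⟩
  · intro j
    fin_cases j
    · exact Rch.refl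
    · exact Rch.refl.inv
  · apply dist_of_lt
    · intro j
      fin_cases j
      · exact hx
      · exact hx.inv
    · intro i j hij
      fin_cases i <;> fin_cases j <;> simp at hij
      intro hA
      have hA' : Cj q x x⁻¹ := hA
      have h4 : Cj q x⁻¹ (x⁻¹)⁻¹ := by
        rw [inv_inv]
        exact hA'.symm hx
      have h5 : Cj q x⁻¹ (1 - x⁻¹) := (hA'.symm hx).trans hR
      exact hr (root_inv h0 (root_of_AB_q hp hq (inv_ne_zero h0) (fun h => h1 (inv_eq_one.mp h)) h4 h5))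
  · intro j
    fin_cases j
    · exact ⟨1, Cj.refl _⟩
    · refine ⟨0, Cj.of_eq ?_⟩
      show (x⁻¹)⁻¹ = x
      rw [inv_inv]
  · intro j
    fin_cases j
    · refine ⟨1, ?_⟩
      show Cj q (1 - x) x⁻¹
      have h6 := (hR'.symm hx).inv
      rw [inv_inv] at h6
      exact h6
    · exact ⟨0, hR.symm hx⟩
  · refine Or.inr (Or.inr (Or.inl ⟨rfl, Or.inr ?_⟩))
    intro j f hf
    fin_cases j
    · exact hdiv f hf
    · have hf' : x⁻¹ ^ q ^ f = x⁻¹ := hf
      rw [inv_pow, inv_inj] at hf'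
      exact hdiv f hf'

/-- the free case -/
theorem blk_free_q (hq : ∃ g, q = p ^ g) {x : Ω} (h0 : x ≠ 0) (h1 : x ≠ 1) (hx : Per q x)
    (hA : ¬ Cj q x x⁻¹) (hB : ¬ Cj q x (1 - x)) (hC : ¬ Cj q x (1 - x⁻¹)⁻¹)
    (hR : ¬ Cj q x (1 - x⁻¹)) (hR' : ¬ Cj q x (1 - x)⁻¹) : ∃ n y, Blk q x n y := by
  have e1 := bab h0 h1
  have e2 := bcx h0 h1
  have e3 := acx h0 h1
  refine ⟨6, ![x, x⁻¹, 1 - x, 1 - x⁻¹, (1 - x)⁻¹, (1 - x⁻¹)⁻¹], ?_, ?_, ?_, ?_, ?_⟩
  · intro j
    fin_cases j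
    · exact Rch.refl
    · exact Rch.refl.inv
    · exact Rch.refl.sub
    · exact Rch.refl.inv.sub
    · exact Rch.refl.sub.inv
    · exact Rch.refl.inv.sub.inv
  · apply dist_of_lt
    · intro j
      fin_cases j
      · exact hx
      · exact hx.inv
      · exact hx.subq hq
      · exact hx.inv.subq hq
      · exact (hx.subq hq).inv
      · exact (hx.inv.subq hq).inv
    · intro i j hij
      fin_cases i <;> fin_cases j <;> simp at hij
      · exact hA
      · exact hB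
      · exact hR
      · exact hR'
      · exact hC
      · intro hc
        have h := Cj.inv (show Cj q x⁻¹ (1 - x) from hc)
        rw [inv_inv] at h
        exact hR' h
      · intro hc
        have h := Cj.inv (show Cj q x⁻¹ (1 - x⁻¹) from hc)
        rw [inv_inv] at h
        exact hC h
      · intro hc
        have h := Cj.inv (show Cj q x⁻¹ (1 - x)⁻¹ from hc)
        rw [inv_inv, inv_inv] at h
        exact hB h
      · intro hc
        have h := Cj.inv (show Cj q x⁻¹ (1 - x⁻¹)⁻¹ from hc)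
        rw [inv_inv, inv_inv] at h
        exact hR h
      · intro hc
        have h := Cj.subq hq (show Cj q (1 - x) (1 - x⁻¹) from hc)
        rw [sub_sub_cancel, sub_sub_cancel] at h
        exact hA h
      · intro hc
        have h := Cj.subq hq (show Cj q (1 - x) (1 - x)⁻¹ from hc)
        rw [sub_sub_cancel, e1] at h
        exact hC h
      · intro hc
        have h := Cj.subq hq (show Cj q (1 - x) (1 - x⁻¹)⁻¹ from hc)
        rw [sub_sub_cancel, e2] at h
        exact hR' h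
      · intro hc
        have h := Cj.inv (Cj.subq hq (show Cj q (1 - x⁻¹) (1 - x)⁻¹ from hc))
        rw [sub_sub_cancel, inv_inv, e3] at h
        exact hR h
      · intro hc
        have h := Cj.inv (Cj.subq hq (show Cj q (1 - x⁻¹) (1 - x⁻¹)⁻¹ from hc))
        rw [sub_sub_cancel, inv_inv, e2, inv_inv] at h
        exact hB h
      · intro hc
        have h := Cj.subq hq (Cj.inv (show Cj q (1 - x)⁻¹ (1 - x⁻¹)⁻¹ from hc))
        rw [inv_inv, inv_inv, sub_sub_cancel, sub_sub_cancel] at h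
        exact hA h
  · intro j
    fin_cases j
    · exact ⟨1, Cj.refl _⟩
    · exact ⟨0, Cj.of_eq (inv_inv x)⟩
    · exact ⟨4, Cj.refl _⟩
    · exact ⟨5, Cj.refl _⟩
    · exact ⟨2, Cj.of_eq (inv_inv (1 - x))⟩
    · exact ⟨3, Cj.of_eq (inv_inv (1 - x⁻¹))⟩
  · intro j
    fin_cases j
    · exact ⟨2, Cj.refl _⟩
    · exact ⟨3, Cj.refl _⟩
    · exact ⟨0, Cj.of_eq (sub_sub_cancel 1 x)⟩
    · exact ⟨1, Cj.of_eq (sub_sub_cancel 1 x⁻¹)⟩
    · exact ⟨5, Cj.of_eq e1⟩
    · exact ⟨4, Cj.of_eq e2⟩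
  · exact Or.inl rfl

theorem root_sub_q {x : Ω} : (1 - x) ^ 2 - (1 - x) + 1 = x ^ 2 - x + 1 := by ring

/-- THE ORBIT LEMMA -/
theorem orbit_q (hp : 5 ≤ p) (hq : ∃ g, q = p ^ g) {x : Ω} (h0 : x ≠ 0) (h1 : x ≠ 1) (hx : Per q x) :
    ∃ n y, Blk q x n y := by
  by_cases hr : x ^ 2 - x + 1 = 0
  · exact blk_root_q hp hq h0 h1 hx hr
  by_cases hA : Cj q x x⁻¹
  · exact blk_A_q hp hq h0 h1 hx hr hA
  by_cases hR : Cj q x (1 - x⁻¹)
  · exact blk_R_q hp hq h0 h1 hx hr hR
  by_cases hR' : Cj q x (1 - x)⁻¹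
  · -- the other rotation
    exfalso
    apply hR
    have h2 := (hR'.subq hq).inv
    rw [acx h0 h1] at h2
    exact hR'.trans h2
  by_cases hC : Cj q x (1 - x⁻¹)⁻¹
  · -- base point `1 - x`
    have hn := (Rch.refl (x := x)).sub.ne h0 h1
    obtain ⟨n, y, hb⟩ := blk_A_q (p := p) (q := q) hp hq hn.1 hn.2 (hx.subq hq)
      (by rw [root_sub]; exact hr) (by
      have h2 := hC.subq hq
      rwa [bcx h0 h1] at h2)
    exact ⟨n, y, hb.mono Rch.refl.sub⟩
  by_cases hB : Cj q x (1 - x)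
  · -- base point `(1 - x⁻¹)⁻¹`
    have hn := (Rch.refl (x := x)).inv.sub.inv.ne h0 h1
    obtain ⟨n, y, hb⟩ := blk_A_q (p := p) (q := q) hp hq hn.1 hn.2 (hx.inv.subq hq).inv (by
      intro h
      apply hr
      have h4 : (1 - x⁻¹) ^ 2 - (1 - x⁻¹) + 1 = 0 := by
        have h5 := root_inv (x := (1 - x⁻¹)) (by
          intro h6
          apply hn.1
          rw [h6, inv_zero]) h
        exact h5
      rw [root_sub] at h4
      exact root_inv h0 h4) (by
      rw [inv_inv]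
      have h2 := hB.inv.subq hq
      -- `Cj (1 - x⁻¹) (1 - (1-x)⁻¹)`
      rw [bab h0 h1] at h2
      exact h2.symm (hx.inv.subq hq))
    exact ⟨n, y, hb.mono Rch.refl.inv.sub.inv⟩
  exact blk_free_q hq h0 h1 hx hA hB hC hR hR'

end blocks

end H85FD
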