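import Pool.Agent.H85.FD.Adm
import Pool.Agent.H85.FD.OrbitQ

/-!
# The partition criterion for a power `q` of `p`

`splits_of_S3_q`: as `splits_of_S3`, with the Frobenius map `x ↦ x ^ q`, `q = p ^ g`.
-/

namespace H85FD

open Finset

section

variable {Ω : Type*} [Field Ω] {p q : ℕ} {α Q : Type*} [Fintype α] [Fintype Q]
  {T : α → Ω} {κ : α → Q} {f : Q → ℕ}


open Classical in
theorem weight_inv_q (h : Fam q T κ f) {x : Ω} (_ : Per q x) :
    fs (Dm h {cls q x⁻¹}) = fs (Dm h {cls q x}) := by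
  rw [fs_Dm, fs_Dm]
  obtain ⟨σ, hσ⟩ := h.s3.1
  have hσ' : ∀ v, T (σ v) = (T v)⁻¹ := fun v => eq_inv_of_mul_eq_one_left (hσ v)
  refine card_bij' (fun i _ => σ.symm i) (fun i _ => σ i) ?_ ?_ ?_ ?_
  · intro i hi
    simp only [mem_filter, mem_univ, true_and] at hi ⊢
    have h1 := hσ' (σ.symm i)
    rw [Equiv.apply_symm_apply] at h1
    rw [h1, cls_eq_iff (h.perT _).inv] at hi
    rw [cls_eq_iff (h.perT _)]
    have h2 := hi.inv
    rwa [inv_inv, inv_inv] at h2
  · intro i hi
    simp only [mem_filter, mem_univ, true_and] at hi ⊢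
    rw [cls_eq_iff (h.perT _)] at hi
    rw [hσ', cls_eq_iff (h.perT _).inv]
    exact hi.inv
  · intro i _
    simp
  · intro i _
    simp

variable [Fact p.Prime] [CharP Ω p]

open Classical in
theorem weight_sub_q (hq : ∃ g, q = p ^ g) (h : Fam q T κ f) {x : Ω} (_ : Per q x) :
    fs (Dm h {cls q (1 - x)}) = fs (Dm h {cls q x}) := by
  rw [fs_Dm, fs_Dm]
  obtain ⟨σ, hσ'⟩ := h.s3.2
  refine card_bij' (fun i _ => σ.symm i) (fun i _ => σ i) ?_ ?_ ?_ ?_
  · intro i hi
    simp only [mem_filter, mem_univ, true_and] at hi ⊢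
    have h1 := hσ' (σ.symm i)
    rw [Equiv.apply_symm_apply] at h1
    rw [h1, cls_eq_iff ((h.perT _).subq hq)] at hi
    rw [cls_eq_iff (h.perT _)]
    have h2 := hi.subq hq
    rwa [sub_sub_cancel, sub_sub_cancel] at h2
  · intro i hi
    simp only [mem_filter, mem_univ, true_and] at hi ⊢
    rw [cls_eq_iff (h.perT _)] at hi
    rw [hσ', cls_eq_iff ((h.perT _).subq hq)]
    exact hi.subq hq
  · intro i _
    simp
  · intro i _
    simp

theorem weight_rch_q (hq : ∃ g, q = p ^ g) (h : Fam q T κ f) {x y : Ω} (hx : Per q x)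
    (hxy : Rch x y) :
    fs (Dm h {cls q y}) = fs (Dm h {cls q x}) := by
  induction hxy with
  | refl => rfl
  | inv hy ih => rw [weight_inv_q h (hy.perq hq hx), ih]
  | sub hy ih => rw [weight_sub_q hq h (hy.perq hq hx), ih]

omit [Fintype α] in
theorem Inv.rchq (hq : ∃ g, q = p ^ g) {C : Finset (Set Ω)} (hC : Inv q T C) {x y : Ω}
    (hx : Per q x)
    (hxC : cls q x ∈ C) (hxy : Rch x y) : cls q y ∈ C := by
  induction hxy with
  | refl => exact hxC
  | inv hy ih => exact hC.inv _ (hy.perq hq hx) ih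
  | sub hy ih => exact hC.sub _ (hy.perq hq hx) ih

theorem splits_aux_q (hp : 5 ≤ p) (hq : ∃ g, q = p ^ g) (h : Fam q T κ f) {W : Prop}
    (hW : (∃ i, T i = -1) → W) :
    ∀ (N : ℕ) (C : Finset (Set Ω)), C.card ≤ N → Inv q T C → Splits (q % 3) W (Dm h C) := by
  classical
  intro N
  induction N with
  | zero =>
    intro C hN _
    have : C = ∅ := by
      rw [← card_eq_zero]
      omega
    rw [this, Dm_empty]
    exact Splits.nil
  | succ N ih =>
    intro C hN hC
    rcases C.eq_empty_or_nonempty with hE | ⟨X, hX⟩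
    · rw [hE, Dm_empty]
      exact Splits.nil
    obtain ⟨i, rfl⟩ := hC.mem X hX
    have hx := h.perT i
    obtain ⟨n, y, hb⟩ := orbit_q hp hq (h.s3.ne_zero i) (h.s3.ne_one i) hx
    have hyP : ∀ j, Per q (y j) := fun j => (hb.rch j).perq hq hx
    have hyC : ∀ j, cls q (y j) ∈ C := fun j => hC.rchq hq hx hX (hb.rch j)
    have hinj : Function.Injective (fun j => cls q (y j)) := by
      intro j j' hj
      exact hb.dist j j' ((cls_eq_iff (hyP j)).mp hj)
    set G : Finset (Set Ω) := univ.image (fun j => cls q (y j)) with hG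
    have hGC : G ⊆ C := by
      intro Y hY
      obtain ⟨j, -, rfl⟩ := mem_image.mp hY
      exact hyC j
    -- `x` lies in one of the classes of the block
    have hn : 0 < n := by
      rcases hb.kind with h1 | h1 | h1 | h1
      · omega
      · omega
      · omega
      · omega
    have hcard : (C \ G).card ≤ N := by
      have h1 : G.card = n := by
        rw [hG, card_image_of_injective _ hinj, card_univ, Fintype.card_fin]
      have h2 := card_sdiff_add_card_eq_card hGC
      omega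
    have hInv : Inv q T (C \ G) := by
      refine ⟨fun Y hY => hC.mem Y (mem_sdiff.mp hY).1, ?_, ?_⟩
      · intro z hz hzC
        rw [mem_sdiff] at hzC ⊢
        refine ⟨hC.inv z hz hzC.1, fun hzG => hzC.2 ?_⟩
        obtain ⟨j, -, hj⟩ := mem_image.mp hzG
        have h1 := ((cls_eq_iff (hyP j)).mp hj)
        -- `Cj (y j) z⁻¹`
        obtain ⟨j', hj'⟩ := hb.inv j
        have h2 : Cj q (y j') z := by
          have h3 := h1.inv
          rw [inv_inv] at h3
          exact (hj'.symm (hyP j).inv).trans h3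
        exact mem_image.mpr ⟨j', mem_univ _, (cls_eq_iff (hyP j')).mpr h2⟩
      · intro z hz hzC
        rw [mem_sdiff] at hzC ⊢
        refine ⟨hC.sub z hz hzC.1, fun hzG => hzC.2 ?_⟩
        obtain ⟨j, -, hj⟩ := mem_image.mp hzG
        have h1 := ((cls_eq_iff (hyP j)).mp hj)
        obtain ⟨j', hj'⟩ := hb.sub j
        have h2 : Cj q (y j') z := by
          have h3 := h1.subq hq
          rw [sub_sub_cancel] at h3
          exact (hj'.symm ((hyP j).subq hq)).trans h3
        exact mem_image.mpr ⟨j', mem_univ _, (cls_eq_iff (hyP j')).mpr h2⟩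
    have hsplit : Dm h C = ∑ j, Dm h {cls q (y j)} + Dm h (C \ G) := by
      rw [← Dm_image h (fun j => cls q (y j)) hinj, ← hG, ← Dm_union h disjoint_sdiff]
      congr 1
      exact (union_sdiff_of_subset hGC).symm
    -- degrees of the places of the block
    have hdeg : ∀ k ∈ ∑ j, Dm h {cls q (y j)}, ∃ j, y j ^ q ^ k.2 = y j := by
      intro k hk
      obtain ⟨j, -, hj⟩ := Multiset.mem_sum.mp hk
      obtain ⟨P, hP, hkP⟩ := mem_Dm h hj
      refine ⟨j, ?_⟩
      obtain ⟨i', rfl⟩ := h.surj P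
      rw [cl_apply h, cls_eq_iff (h.perT _)] at hP
      obtain ⟨m, hm⟩ := hP
      rw [hkP, hm, ← pow_mul, mul_comm, pow_mul, h.per]
    rw [hsplit]
    refine Splits.block n _ _ ?_ ?_ (ih _ hcard hInv)
    · rcases hb.kind with h1 | ⟨h1, h2 | h2⟩ | ⟨h1, h2 | h2⟩ | ⟨h1, h2, h3⟩
      · exact Or.inl h1
      · refine Or.inr (Or.inl ⟨h1, Or.inl (hW ?_)⟩)
        obtain ⟨j, hj⟩ := h2
        obtain ⟨i', hi'⟩ := hC.mem _ (hyC j)
        refine ⟨i', ?_⟩
        obtain ⟨m, hm⟩ := (cls_eq_iff (hyP j)).mp hi'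
        rw [hm, hj]
        exact ((odd_q hp hq).pow).neg_one_pow
      · refine Or.inr (Or.inl ⟨h1, Or.inr fun k hk => ?_⟩)
        obtain ⟨j, hj⟩ := hdeg k hk
        exact h2 j _ hj
      · exact Or.inr (Or.inr (Or.inl ⟨h1, Or.inl h2⟩))
      · refine Or.inr (Or.inr (Or.inl ⟨h1, Or.inr fun k hk => ?_⟩))
        obtain ⟨j, hj⟩ := hdeg k hk
        exact h2 j _ hj
      · refine Or.inr (Or.inr (Or.inr ⟨h1, h2, fun k hk => ?_⟩))
        obtain ⟨j, hj⟩ := hdeg k hk
        exact h3 j _ hj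
    · intro j j'
      rw [weight_rch_q hq h hx (hb.rch j), weight_rch_q hq h hx (hb.rch j')]

end

/-- THE PARTITION CRITERION for a power `q` of `p` -/
theorem splits_of_S3_q {Ω : Type*} [Field Ω] {p q : ℕ} [Fact p.Prime] [CharP Ω p] (hp : 5 ≤ p)
    (hq : ∃ g, q = p ^ g)
    {α Q : Type*} [Fintype α] [Fintype Q] {T : α → Ω} {κ : α → Q} {f : Q → ℕ}
    (hS : H52FD.S3 T) (hκ : Function.Surjective κ)
    (hconj : ∀ i j, κ i = κ j → ∃ k : ℕ, T j = T i ^ q ^ k)
    (hper : ∀ i, T i ^ q ^ f (κ i) = T i) (hf : ∀ P, 0 < f P) {W : Prop}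
    (hW : (∃ i, T i = -1) → W) :
    Splits (q % 3) W ((univ : Finset Q).val.map fun P => (Nat.card {i // κ i = P}, f P)) := by
  classical
  have h : Fam q T κ f := ⟨hS, hκ, hconj, hper, hf⟩
  have hmain := splits_aux_q hp hq h hW _ (univ.image fun i => cls q (T i)) le_rfl
    ⟨fun X hX => by
      obtain ⟨i, -, rfl⟩ := mem_image.mp hX
      exact ⟨i, rfl⟩, fun x hx hxC => by
      obtain ⟨i, -, hi⟩ := mem_image.mp hxC
      obtain ⟨σ, hσ⟩ := hS.1
      refine mem_image.mpr ⟨σ i, mem_univ _, ?_⟩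
      rw [eq_inv_of_mul_eq_one_left (hσ i), cls_eq_iff (h.perT i).inv]
      exact ((cls_eq_iff (h.perT i)).mp hi).inv, fun x hx hxC => by
      obtain ⟨i, -, hi⟩ := mem_image.mp hxC
      obtain ⟨σ, hσ⟩ := hS.2
      refine mem_image.mpr ⟨σ i, mem_univ _, ?_⟩
      rw [hσ i, cls_eq_iff ((h.perT i).subq hq)]
      exact ((cls_eq_iff (h.perT i)).mp hi).subq hq⟩
  have e : Dm h (univ.image fun i => cls q (T i)) =
      (univ : Finset Q).val.map fun P => (Nat.card {i // κ i = P}, f P) := by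
    unfold Dm
    have e1 : univ.filter (fun P => cl h P ∈ univ.image fun i => cls q (T i)) = univ := by
      rw [filter_true_of_mem]
      intro P _
      obtain ⟨i, rfl⟩ := hκ P
      rw [cl_apply h]
      exact mem_image.mpr ⟨i, mem_univ _, rfl⟩
    rw [e1]
    refine Multiset.map_congr rfl fun P _ => ?_
    rw [Nat.card_eq_fintype_card, Fintype.card_subtype]
    rfl
  rw [← e]
  exact hmain

end H85FD
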