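import Mathlib

/-!
# From logarithmic mass to relative density among the primes

`mass E X` is the sum of `log p` over the primes `p ≤ X` in `E`, `cnt E X` is their number.
`cnt_le_of_mass`: if `mass E X ≤ (ε/8) X` and `X` is large (depending on `ε` only), then
`cnt E X ≤ ε π(X)`.
-/

namespace H85FD

open Finset

noncomputable section

open Classical in
/-- the primes `p ≤ X` in `E` -/
def pset (E : ℕ → Prop) (X : ℕ) : Finset ℕ := (range (X + 1)).filter (fun p => p.Prime ∧ E p)

/-- the sum of `log p` over the primes `p ≤ X` in `E` -/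
def mass (E : ℕ → Prop) (X : ℕ) : ℝ := ∑ p ∈ pset E X, Real.log p

/-- the number of primes `p ≤ X` in `E` -/
def cnt (E : ℕ → Prop) (X : ℕ) : ℕ := (pset E X).card

lemma mem_pset {E : ℕ → Prop} {X p : ℕ} : p ∈ pset E X ↔ p ≤ X ∧ p.Prime ∧ E p := by
  classical
  simp [pset]

lemma mass_nonneg (E : ℕ → Prop) (X : ℕ) : 0 ≤ mass E X :=
  sum_nonneg fun p _ => Real.log_natCast_nonneg p

lemma pset_mono {E F : ℕ → Prop} (h : ∀ p, E p → F p) (X : ℕ) : pset E X ⊆ pset F X := by
  intro p hp
  rw [mem_pset] at hp ⊢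
  exact ⟨hp.1, hp.2.1, h p hp.2.2⟩

lemma mass_mono {E F : ℕ → Prop} (h : ∀ p, E p → F p) (X : ℕ) : mass E X ≤ mass F X :=
  sum_le_sum_of_subset_of_nonneg (pset_mono h X) fun p _ _ => Real.log_natCast_nonneg p

lemma cnt_mono {E F : ℕ → Prop} (h : ∀ p, E p → F p) (X : ℕ) : cnt E X ≤ cnt F X :=
  card_le_card (pset_mono h X)

lemma mass_or_le (E F : ℕ → Prop) (X : ℕ) : mass (fun p => E p ∨ F p) X ≤ mass E X + mass F X := by
  classical
  have hsub : pset (fun p => E p ∨ F p) X ⊆ pset E X ∪ pset F X := by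
    intro p hp
    rw [mem_pset] at hp
    rw [mem_union, mem_pset, mem_pset]
    rcases hp with ⟨h1, h2, h3 | h3⟩
    · exact Or.inl ⟨h1, h2, h3⟩
    · exact Or.inr ⟨h1, h2, h3⟩
  calc mass (fun p => E p ∨ F p) X ≤ ∑ p ∈ pset E X ∪ pset F X, Real.log p :=
        sum_le_sum_of_subset_of_nonneg hsub fun p _ _ => Real.log_natCast_nonneg p
    _ ≤ ∑ p ∈ pset E X, Real.log p + ∑ p ∈ pset F X, Real.log p := by
        have h := sum_union_inter (s₁ := pset E X) (s₂ := pset F X)
          (f := fun p : ℕ => Real.log (p : ℝ))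
        have h0 : 0 ≤ ∑ p ∈ pset E X ∩ pset F X, Real.log (p : ℝ) :=
          sum_nonneg fun p _ => Real.log_natCast_nonneg p
        linarith

/-- finitely many primes have bounded mass -/
lemma mass_fin_le (B X : ℕ) : mass (fun p => p ≤ B) X ≤ B * Real.log B + 0 := by
  classical
  have hsub : pset (fun p => p ≤ B) X ⊆ Finset.Ioc 0 B := by
    intro p hp
    rw [mem_pset] at hp
    rw [mem_Ioc]
    exact ⟨hp.2.1.pos, hp.2.2⟩
  have h1 : mass (fun p => p ≤ B) X ≤ ∑ p ∈ Finset.Ioc 0 B, Real.log (p : ℝ) :=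
    sum_le_sum_of_subset_of_nonneg hsub fun p _ _ => Real.log_natCast_nonneg p
  have h2 : ∑ p ∈ Finset.Ioc 0 B, Real.log (p : ℝ) ≤ ∑ _p ∈ Finset.Ioc 0 B, Real.log (B : ℝ) := by
    refine sum_le_sum fun p hp => ?_
    rw [mem_Ioc] at hp
    exact Real.log_le_log (by exact_mod_cast hp.1) (by exact_mod_cast hp.2)
  rw [sum_const, Nat.card_Ioc, nsmul_eq_mul, Nat.sub_zero] at h2
  linarith

/-- MAIN: small mass gives small relative density. -/
theorem cnt_le_of_mass {ε : ℝ} (hε : 0 < ε) :
    ∃ X₀ : ℕ, ∀ (E : ℕ → Prop) (X : ℕ), X₀ ≤ X → mass E X ≤ ε / 8 * X →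
      (cnt E X : ℝ) ≤ ε * (Nat.primeCounting X : ℝ) := by
  classical
  -- asymptotic facts
  have hA : ∀ᶠ X : ℕ in Filter.atTop,
      Real.log ((X : ℝ) + 1) ≤ (Real.log 2 - 1 / 2) * X := by
    have h := (Real.isLittleO_log_id_atTop.bound (c := (Real.log 2 - 1 / 2) / 2)
      (by have := Real.log_two_gt_d9; linarith))
    have h2 : Filter.Tendsto (fun X : ℕ => ((X : ℝ) + 1)) Filter.atTop Filter.atTop :=
      Filter.tendsto_atTop_add_const_right _ _ tendsto_natCast_atTop_atTop
    filter_upwards [h2.eventually h, Filter.eventually_ge_atTop 1] with X hX hX1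
    have hX1' : (1 : ℝ) ≤ X := by exact_mod_cast hX1
    simp only [id, Real.norm_eq_abs] at hX
    have h3 := le_trans (le_abs_self _) hX
    rw [abs_of_nonneg (by linarith : (0 : ℝ) ≤ (X : ℝ) + 1)] at h3
    have hl : 0 < Real.log 2 - 1 / 2 := by have := Real.log_two_gt_d9; linarith
    nlinarith
  have hB : ∀ᶠ X : ℕ in Filter.atTop,
      Real.log (X : ℝ) ≤ (ε / 4) * Real.sqrt X := by
    have h := isLittleO_log_rpow_atTop (r := 1 / 2) (by norm_num)
    have h2 := h.bound (c := ε / 4) (by positivity)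
    filter_upwards [tendsto_natCast_atTop_atTop.eventually h2, Filter.eventually_ge_atTop 1]
      with X hX hX1
    have hX1' : (1 : ℝ) ≤ X := by exact_mod_cast hX1
    rw [Real.norm_eq_abs, Real.norm_eq_abs] at hX
    have h3 := le_trans (le_abs_self _) hX
    rw [abs_of_nonneg (by positivity), ← Real.sqrt_eq_rpow] at h3
    exact h3
  obtain ⟨X₀, hX₀⟩ := Filter.eventually_atTop.mp (hA.and (hB.and (Filter.eventually_ge_atTop 4)))
  refine ⟨X₀, fun E X hX hm => ?_⟩
  obtain ⟨h1, h2, h4⟩ := hX₀ X hX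
  have hX4 : (4 : ℝ) ≤ X := by exact_mod_cast h4
  have hX0 : (0 : ℝ) < X := by linarith
  have hlog : 0 < Real.log (X : ℝ) := Real.log_pos (by linarith)
  -- lower bound for pi
  have hpi : (X : ℝ) / 2 ≤ (Nat.primeCounting X : ℝ) * Real.log X := by
    have h := Chebyshev.pi_ge X
    rw [div_le_iff₀ hlog] at h
    have : (X : ℝ) / 2 ≤ X * Real.log 2 - Real.log (X + 1) := by nlinarith
    exact this.trans h
  -- the small primes
  set S := Nat.sqrt X with hS
  have hSle : (S : ℝ) ≤ Real.sqrt X := Real.nat_sqrt_le_real_sqrt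
  have hcard : ((pset E X).card : ℝ) ≤ S + ((pset E X).filter (fun p => S < p)).card := by
    have hsplit := card_filter_add_card_filter_not (s := pset E X) (fun p => S < p)
    have hle : ((pset E X).filter (fun p => ¬ S < p)).card ≤ S := by
      calc ((pset E X).filter (fun p => ¬ S < p)).card ≤ (Finset.Ioc 0 S).card := by
            refine card_le_card fun p hp => ?_
            rw [mem_filter, mem_pset] at hp
            rw [mem_Ioc]
            exact ⟨hp.1.2.1.pos, by omega⟩
        _ = S := by simp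
    have : (pset E X).card ≤ S + ((pset E X).filter (fun p => S < p)).card := by omega
    exact_mod_cast this
  -- the big primes
  have hbig : (((pset E X).filter (fun p => S < p)).card : ℝ) * (Real.log X / 2) ≤ mass E X := by
    have hterm : ∀ p ∈ (pset E X).filter (fun p => S < p), Real.log X / 2 ≤ Real.log (p : ℝ) := by
      intro p hp
      rw [mem_filter, mem_pset] at hp
      have hlt : X < p * p := by
        have := Nat.sqrt_lt.mp (show Nat.sqrt X < p from hp.2)
        exact this
      have hp0 : (0 : ℝ) < p := by exact_mod_cast hp.1.2.1.pos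
      have : Real.log X ≤ Real.log ((p : ℝ) * p) :=
        Real.log_le_log hX0 (by exact_mod_cast hlt.le)
      rw [Real.log_mul hp0.ne' hp0.ne'] at this
      linarith
    calc (((pset E X).filter (fun p => S < p)).card : ℝ) * (Real.log X / 2)
        = ∑ _p ∈ (pset E X).filter (fun p => S < p), Real.log X / 2 := by
          rw [sum_const, nsmul_eq_mul]
      _ ≤ ∑ p ∈ (pset E X).filter (fun p => S < p), Real.log (p : ℝ) := sum_le_sum hterm
      _ ≤ mass E X := sum_le_sum_of_subset_of_nonneg (filter_subset _ _)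
          fun p _ _ => Real.log_natCast_nonneg p
  -- combine
  have hsq : Real.sqrt X * Real.sqrt X = X := Real.mul_self_sqrt hX0.le
  have hsq0 : 0 < Real.sqrt X := Real.sqrt_pos.mpr hX0
  have hc : (cnt E X : ℝ) * Real.log X ≤ ε / 2 * X := by
    have e1 : (cnt E X : ℝ) * Real.log X ≤
        Real.sqrt X * Real.log X + 2 * mass E X := by
      unfold cnt
      nlinarith
    have e2 : Real.sqrt X * Real.log X ≤ ε / 4 * X := by
      calc Real.sqrt X * Real.log X ≤ Real.sqrt X * (ε / 4 * Real.sqrt X) := by gcongr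
        _ = ε / 4 * (Real.sqrt X * Real.sqrt X) := by ring
        _ = ε / 4 * X := by rw [hsq]
    linarith
  have : (cnt E X : ℝ) * Real.log X ≤ (ε * (Nat.primeCounting X : ℝ)) * Real.log X := by
    nlinarith
  exact le_of_mul_le_mul_right this hlog

end

end H85FD
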