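import Mathlib

/-!
# Fixed points of `s ↦ 1/s` and `s ↦ 1 - 1/s` on finite families

`T : Fin n → F` is a finite family (a multiset) in a field.  `Inv T` of project FD is
`∃ σ : Equiv.Perm (Fin n), ∀ v, T (σ v) * T v = 1`.
* `odd_inv`: `n` odd, `T v ≠ 1`, inversion-stable: some `T v = -1`.
* `three_inv`: `3 ∤ n`, `T` and `1 - 1/T` inversion-stable: some `T v` is a root of `X² - X + 1`.
-/

namespace H85FD

open Finset

variable {F : Type*} [Field F]

section gen

omit [Field F]

variable {α : Type*} [Fintype α]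

open Classical in
/-- the multiplicity of `x` in the family `T` -/
noncomputable def mul (T : α → F) (x : F) : ℕ := (univ.filter (fun v => T v = x)).card

open Classical in
lemma sum_mul (T : α → F) : ∑ x ∈ univ.image T, mul T x = Fintype.card α := by
  unfold mul
  rw [← card_eq_sum_card_image T univ, card_univ]

lemma mul_pos_iff (T : α → F) (x : F) : 0 < mul T x ↔ ∃ v, T v = x := by
  classical
  unfold mul
  rw [card_pos, filter_nonempty_iff]
  simp

/-- multiplicities under an injective substitution -/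
lemma mul_comp (T : α → F) (g : F → F) (hg : Set.InjOn g (Set.range T)) (v : α) :
    mul (fun v => g (T v)) (g (T v)) = mul T (T v) := by
  classical
  unfold mul
  congr 1
  ext w
  simp only [mem_filter, mem_univ, true_and]
  exact ⟨fun h => hg ⟨w, rfl⟩ ⟨v, rfl⟩ h, fun h => by rw [h]⟩

/-- multiplicities under a permutation -/
lemma mul_perm (T : α → F) (σ : Equiv.Perm α) (x : F) : mul (fun v => T (σ v)) x = mul T x := by
  classical
  unfold mul
  refine card_bij (fun v _ => σ v) ?_ ?_ ?_
  · intro v hv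
    simpa using hv
  · intro v _ w _ h
    exact σ.injective h
  · intro w hw
    refine ⟨σ.symm w, ?_, by simp⟩
    simpa using hw

/-- the substitution `g` preserves the multiset: multiplicities agree -/
lemma mul_eq_of_perm (T : α → F) (g : F → F) (hg : Set.InjOn g (Set.range T))
    (σ : Equiv.Perm α) (h : ∀ v, T (σ v) = g (T v)) (v : α) : mul T (g (T v)) = mul T (T v) := by
  have h1 : (fun v => g (T v)) = fun v => T (σ v) := by
    funext w
    rw [h]
  rw [← mul_comp T g hg v, h1, mul_perm]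

end gen

/-- `n` odd: an inversion-stable family without `1` contains `-1`. -/
theorem odd_inv {n : ℕ} (hn : Odd n) (T : Fin n → F) (h1 : ∀ v, T v ≠ 1)
    (hI : ∃ σ : Equiv.Perm (Fin n), ∀ v, T (σ v) * T v = 1) : ∃ v, T v = -1 := by
  classical
  by_contra hne
  push Not at hne
  obtain ⟨σ, hσ⟩ := hI
  have h0 : ∀ v, T v ≠ 0 := by
    intro v hv
    have := hσ v
    rw [hv, mul_zero] at this
    exact zero_ne_one this
  have hinv : ∀ v, T (σ v) = (T v)⁻¹ := fun v => eq_inv_of_mul_eq_one_left (hσ v)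
  have hm : ∀ v, mul T ((T v)⁻¹) = mul T (T v) :=
    mul_eq_of_perm T (fun x => x⁻¹) (fun _ _ _ _ h => inv_injective h) σ hinv
  have hsum : (∑ x ∈ univ.image T, (mul T x : ZMod 2)) = 0 := by
    refine sum_involution (fun x _ => x⁻¹) ?_ ?_ ?_ ?_
    · intro x hx
      obtain ⟨v, -, rfl⟩ := mem_image.mp hx
      rw [hm v]
      exact CharTwo.add_self_eq_zero _
    · intro x hx _ he
      obtain ⟨v, -, rfl⟩ := mem_image.mp hx
      have h2 : T v * T v = 1 := by
        nth_rewrite 1 [← he]
        exact inv_mul_cancel₀ (h0 v)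
      rcases mul_self_eq_one_iff.mp h2 with h | h
      · exact h1 v h
      · exact hne v h
    · intro x hx
      obtain ⟨v, -, rfl⟩ := mem_image.mp hx
      exact mem_image.mpr ⟨σ v, mem_univ _, hinv v⟩
    · intro x _
      exact inv_inv x
  have h2 : ((n : ℕ) : ZMod 2) = 0 := by
    have h3 := sum_mul T
    rw [Fintype.card_fin] at h3
    rw [← h3]
    push_cast
    exact hsum
  rw [ZMod.natCast_eq_zero_iff] at h2
  exact (Nat.not_even_iff_odd.mpr hn) (even_iff_two_dvd.mpr h2)

omit [Field F] in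
/-- a family which is stable under a substitution `g` of order three (on its values) and whose
cardinality is not divisible by three contains a fixed point of `g`. -/
theorem exists_fixed_three {n : ℕ} (hn : ¬ 3 ∣ n) (T : Fin n → F) (g : F → F)
    (σ : Equiv.Perm (Fin n)) (hσ : ∀ v, T (σ v) = g (T v)) (h3 : ∀ v, g (g (g (T v))) = T v) :
    ∃ v, g (T v) = T v := by
  classical
  by_contra hne
  push Not at hne
  have hinj : Set.InjOn g (Set.range T) := by
    rintro _ ⟨v, rfl⟩ _ ⟨w, rfl⟩ h
    rw [← h3 v, ← h3 w, h]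
  have hm := mul_eq_of_perm T g hinj σ hσ
  -- the level sets
  set S := univ.image T with hS
  have hgS : ∀ x ∈ S, g x ∈ S := by
    intro x hx
    obtain ⟨v, -, rfl⟩ := mem_image.mp hx
    exact mem_image.mpr ⟨σ v, mem_univ _, hσ v⟩
  have hg3 : ∀ x ∈ S, g (g (g x)) = x := by
    intro x hx
    obtain ⟨v, -, rfl⟩ := mem_image.mp hx
    exact h3 v
  have hgne : ∀ x ∈ S, g x ≠ x := by
    intro x hx
    obtain ⟨v, -, rfl⟩ := mem_image.mp hx
    exact hne v
  have hlev : ∀ k : ℕ, 3 ∣ (S.filter (fun x => mul T x = k)).card := by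
    intro k
    set A := S.filter (fun x => mul T x = k) with hA
    have hgA : ∀ x ∈ A, g x ∈ A := by
      intro x hx
      rw [hA, mem_filter] at hx ⊢
      refine ⟨hgS x hx.1, ?_⟩
      obtain ⟨v, -, rfl⟩ := mem_image.mp hx.1
      rw [hm v]
      exact hx.2
    let e : Function.End A := fun x => ⟨g x.1, hgA x.1 x.2⟩
    have he : ∀ x, (e x).1 = g x.1 := fun x => rfl
    have : Fact (Nat.Prime 3) := ⟨Nat.prime_three⟩
    have he3 : e ^ 3 ^ 1 = 1 := by
      funext x
      apply Subtype.ext
      have h5 : (e ^ 3 ^ 1) x = e (e (e x)) := by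
        rw [pow_one, pow_succ, pow_succ, pow_one]
        rfl
      rw [h5, he, he, he]
      exact hg3 x.1 (mem_filter.mp x.2).1
    have hmod := Equiv.Perm.card_fixedPoints_modEq he3
    have hempty : Fintype.card (Function.fixedPoints e) = 0 := by
      rw [Fintype.card_eq_zero_iff]
      constructor
      rintro ⟨x, hx⟩
      have hx' : e x = x := hx
      have := congrArg Subtype.val hx'
      rw [he] at this
      exact hgne x.1 (mem_filter.mp x.2).1 this
    rw [hempty, Fintype.card_coe] at hmod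
    exact (Nat.modEq_zero_iff_dvd).mp hmod
  have hsum : 3 ∣ ∑ x ∈ S, mul T x := by
    have h := sum_comp (s := S) (f := fun k : ℕ => k) (g := mul T)
    simp only [smul_eq_mul] at h
    rw [h]
    exact dvd_sum fun k _ => Dvd.dvd.mul_right (hlev k) _
  rw [hS, sum_mul, Fintype.card_fin] at hsum
  exact hn hsum

/-- `3 ∤ n`: if `T` and `1 - 1/T` are inversion-stable, some `T v` is a root of `X² - X + 1`. -/
theorem three_inv {n : ℕ} (hn : ¬ 3 ∣ n) (T : Fin n → F) (h1 : ∀ v, T v ≠ 1)
    (hI : ∃ σ : Equiv.Perm (Fin n), ∀ v, T (σ v) * T v = 1)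
    (hI' : ∃ σ : Equiv.Perm (Fin n), ∀ v, (1 - 1 / T (σ v)) * (1 - 1 / T v) = 1) :
    ∃ v, T v ^ 2 - T v + 1 = 0 := by
  obtain ⟨σ, hσ⟩ := hI
  obtain ⟨τ, hτ⟩ := hI'
  have h0 : ∀ v, T v ≠ 0 := by
    intro v hv
    have := hσ v
    rw [hv, mul_zero] at this
    exact zero_ne_one this
  have h1' : ∀ v, T v - 1 ≠ 0 := fun v => sub_ne_zero.mpr (h1 v)
  -- `T (τ v) = 1 - T v`
  have hτ' : ∀ v, T (τ v) = 1 - T v := by
    intro v
    have h := hτ v
    have a := h0 v
    have b := h0 (τ v)
    field_simp at h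
    linear_combination -h
  have hσ' : ∀ v, T (σ v) = (T v)⁻¹ := fun v => eq_inv_of_mul_eq_one_left (hσ v)
  -- `T (τ (σ v)) = 1 - 1 / T v`
  obtain ⟨v, hv⟩ := exists_fixed_three hn T (fun x => 1 - x⁻¹) (σ.trans τ)
    (fun v => by
      rw [Equiv.trans_apply, hτ', hσ']) (fun v => by
      have a := h0 v
      have b := h1' v
      have e1 : 1 - (T v)⁻¹ = (T v - 1) / T v := by field_simp
      have e2 : 1 - (1 - (T v)⁻¹)⁻¹ = -1 / (T v - 1) := by
        rw [e1]
        field_simp
        ring
      show 1 - (1 - (1 - (T v)⁻¹)⁻¹)⁻¹ = T v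
      rw [e2]
      field_simp
      ring)
  refine ⟨v, ?_⟩
  have a := h0 v
  have hv' : 1 - (T v)⁻¹ = T v := hv
  have e1 : 1 - (T v)⁻¹ = (T v - 1) / T v := by field_simp
  rw [e1, div_eq_iff a] at hv'
  linear_combination -hv'

end H85FD
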