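import Pool.Agent.H52.FD.Orb

/-!
# The anharmonic group and Frobenius orbits

`Cj p x y`: `y = x ^ p ^ k` for some `k`.  `Rch x y`: `y` is obtained from `x` by `s ↦ 1/s`, `s ↦ 1 - s`.
`orbit`: the Frobenius classes of the anharmonic orbit of `x` (not `0`, `1`, algebraic over `𝔽_p`) are
those of `y 0, ..., y (n-1)`, pairwise different, and one of: `n = 6`; `n = 3` and some `y j = -1`;
`n = 3` and all degrees even; `n = 2` and `p = 1` modulo `3`; `n = 2` and all degrees divisible by `3`;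
`n = 1`, `p = 2` modulo `3` and all degrees even.
-/

namespace H85FD

open Finset

variable {Ω : Type*} [Field Ω] (p : ℕ)

/-- Frobenius conjugates -/
def Cj (x y : Ω) : Prop := ∃ k : ℕ, y = x ^ p ^ k

/-- `x` is fixed by a power of Frobenius -/
def Per (x : Ω) : Prop := ∃ f : ℕ, 0 < f ∧ x ^ p ^ f = x

/-- reachable by the anharmonic substitutions -/
inductive Rch (x : Ω) : Ω → Prop
  | refl : Rch x x
  | inv {y : Ω} : Rch x y → Rch x y⁻¹
  | sub {y : Ω} : Rch x y → Rch x (1 - y)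

variable {p}

theorem Rch.trans {x y z : Ω} (h : Rch x y) (h' : Rch y z) : Rch x z := by
  induction h' with
  | refl => exact h
  | inv _ ih => exact ih.inv
  | sub _ ih => exact ih.sub

theorem Cj.refl (x : Ω) : Cj p x x := ⟨0, by simp⟩

theorem Cj.of_eq {x y : Ω} (h : x = y) : Cj p x y := h ▸ Cj.refl x

theorem Cj.trans {x y z : Ω} (h : Cj p x y) (h' : Cj p y z) : Cj p x z := by
  obtain ⟨k, rfl⟩ := h
  obtain ⟨m, rfl⟩ := h'
  exact ⟨k + m, by rw [← pow_mul, pow_add]⟩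

theorem pow_mul_per {x : Ω} {f : ℕ} (h : x ^ p ^ f = x) (m : ℕ) : x ^ p ^ (f * m) = x := by
  induction m with
  | zero => simp
  | succ m ih => rw [Nat.mul_succ, pow_add, pow_mul, ih, h]

theorem Cj.symm {x y : Ω} (hx : Per p x) (h : Cj p x y) : Cj p y x := by
  obtain ⟨f, hf, hfx⟩ := hx
  obtain ⟨k, rfl⟩ := h
  refine ⟨f * k - k, ?_⟩
  rw [← pow_mul, ← pow_add]
  have e : k + (f * k - k) = f * k := by
    have : k ≤ f * k := Nat.le_mul_of_pos_left k hf
    omega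
  rw [e, pow_mul_per hfx]

theorem Per.of_cj {x y : Ω} (hx : Per p x) (h : Cj p x y) : Per p y := by
  obtain ⟨f, hf, hfx⟩ := hx
  obtain ⟨k, rfl⟩ := h
  refine ⟨f, hf, ?_⟩
  rw [← pow_mul, mul_comm, pow_mul, hfx]

theorem Cj.inv {x y : Ω} (h : Cj p x y) : Cj p x⁻¹ y⁻¹ := by
  obtain ⟨k, rfl⟩ := h
  exact ⟨k, (inv_pow x _).symm⟩

theorem Per.inv {x : Ω} (h : Per p x) : Per p x⁻¹ := by
  obtain ⟨f, hf, hfx⟩ := h
  exact ⟨f, hf, by rw [inv_pow, hfx]⟩

/-- the period and an automorphism of order `n` (prime) of the orbit -/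
theorem period {n : ℕ} (hn : n.Prime) {x : Ω} (h : Ω → Ω)
    (hcomm : ∀ (y : Ω) (k : ℕ), h (y ^ p ^ k) = h y ^ p ^ k) (hnx : h^[n] x = x) {k : ℕ}
    (hk : h x = x ^ p ^ k) (hne : h x ≠ x) {f : ℕ} (hf : x ^ p ^ f = x) : n ∣ f := by
  have hit : ∀ m : ℕ, h^[m] x = x ^ p ^ (k * m) := by
    intro m
    induction m with
    | zero => simp
    | succ m ih =>
      rw [Function.iterate_succ_apply', ih, hcomm, hk, ← pow_mul, ← pow_add]
      congr 2
      ring
  have h1 : x ^ p ^ (k * n) = x := by rw [← hit, hnx]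
  -- the gcd
  have hgcd : ∀ a b : ℕ, x ^ p ^ a = x → x ^ p ^ b = x → x ^ p ^ (Nat.gcd a b) = x := by
    intro a b
    induction a, b using Nat.gcd.induction with
    | H0 b => intro _ hb; simpa using hb
    | H1 a b ha ih =>
      intro h2 h3
      rw [Nat.gcd_rec]
      apply ih _ h2
      have e : b = a * (b / a) + b % a := (Nat.div_add_mod b a).symm
      have h4 : x ^ p ^ (a * (b / a) + b % a) = x := by rw [← e]; exact h3
      rw [pow_add, pow_mul, pow_mul_per h2] at h4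
      exact h4
  by_contra hnf
  have hcop : Nat.Coprime n f := (Nat.Prime.coprime_iff_not_dvd hn).mpr hnf
  have h2 := hgcd (k * n) f h1 hf
  have h3 : Nat.gcd (k * n) f ∣ k := by
    have : Nat.gcd (k * n) f = Nat.gcd k f := Nat.Coprime.gcd_mul_right_cancel k hcop
    rw [this]
    exact Nat.gcd_dvd_left k f
  obtain ⟨m, hm⟩ := h3
  apply hne
  rw [hk, hm]
  exact pow_mul_per h2 m

section char

variable [Fact p.Prime] [CharP Ω p]

theorem Cj.sub {x y : Ω} (h : Cj p x y) : Cj p (1 - x) (1 - y) := by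
  obtain ⟨k, rfl⟩ := h
  exact ⟨k, by rw [sub_pow_char_pow, one_pow]⟩

theorem Per.sub {x : Ω} (h : Per p x) : Per p (1 - x) := by
  obtain ⟨f, hf, hfx⟩ := h
  exact ⟨f, hf, by rw [sub_pow_char_pow, one_pow, hfx]⟩

theorem Rch.per {x y : Ω} (h : Rch x y) (hx : Per p x) : Per p y := by
  induction h with
  | refl => exact hx
  | inv _ ih => exact ih.inv
  | sub _ ih => exact ih.sub

end char

theorem Rch.ne {x y : Ω} (h : Rch x y) (h0 : x ≠ 0) (h1 : x ≠ 1) : y ≠ 0 ∧ y ≠ 1 := by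
  induction h with
  | refl => exact ⟨h0, h1⟩
  | inv _ ih => exact ⟨inv_ne_zero ih.1, fun h => ih.2 (inv_eq_one.mp h)⟩
  | sub _ ih =>
    exact ⟨sub_ne_zero.mpr (Ne.symm ih.2), fun h => ih.1 (by linear_combination -h)⟩

/-- the identity `bab = aba` -/
theorem bab {x : Ω} (h0 : x ≠ 0) (h1 : x ≠ 1) : 1 - (1 - x)⁻¹ = (1 - x⁻¹)⁻¹ := by
  have h2 : 1 - x ≠ 0 := sub_ne_zero.mpr (Ne.symm h1)
  have h3 : x - 1 ≠ 0 := sub_ne_zero.mpr h1
  have e : 1 - x⁻¹ = (x - 1) / x := by field_simp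
  rw [e]
  field_simp
  ring

theorem bcx {x : Ω} (h0 : x ≠ 0) (h1 : x ≠ 1) : 1 - (1 - x⁻¹)⁻¹ = (1 - x)⁻¹ := by
  rw [← bab h0 h1]
  ring

theorem acx {x : Ω} (h0 : x ≠ 0) (h1 : x ≠ 1) : (1 - (1 - x)⁻¹)⁻¹ = 1 - x⁻¹ := by
  rw [bab h0 h1, inv_inv]

/-- the kind of a block of `n` Frobenius orbits -/
def KindE (p n : ℕ) (y : Fin n → Ω) : Prop :=
  n = 6 ∨ (n = 3 ∧ ((∃ j, y j = -1) ∨ ∀ j f, y j ^ p ^ f = y j → Even f)) ∨
    (n = 2 ∧ (p % 3 = 1 ∨ ∀ j f, y j ^ p ^ f = y j → 3 ∣ f)) ∨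
    (n = 1 ∧ p % 3 = 2 ∧ ∀ j f, y j ^ p ^ f = y j → Even f)

/-- a block of Frobenius orbits, stable under the anharmonic group, reachable from `x` -/
structure Blk (p : ℕ) (x : Ω) (n : ℕ) (y : Fin n → Ω) : Prop where
  rch : ∀ j, Rch x (y j)
  dist : ∀ i j, Cj p (y i) (y j) → i = j
  inv : ∀ j, ∃ j', Cj p (y j)⁻¹ (y j')
  sub : ∀ j, ∃ j', Cj p (1 - y j) (y j')
  kind : KindE p n y

theorem Blk.mono {x x' : Ω} {n : ℕ} {y : Fin n → Ω} (h : Rch x x') (hb : Blk p x' n y) :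
    Blk p x n y :=
  ⟨fun j => h.trans (hb.rch j), hb.dist, hb.inv, hb.sub, hb.kind⟩

/-- distinctness needs only be checked for `i < j` -/
theorem dist_of_lt {n : ℕ} {y : Fin n → Ω} (hy : ∀ j, Per p (y j))
    (h : ∀ i j, i < j → ¬ Cj p (y i) (y j)) : ∀ i j, Cj p (y i) (y j) → i = j := by
  intro i j hij
  rcases lt_trichotomy i j with h1 | h1 | h1
  · exact absurd hij (h i j h1)
  · exact h1
  · exact absurd (hij.symm (hy i)) (h j i h1)

section blocks

variable [Fact p.Prime] [CharP Ω p]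

/-- roots of `X² - X + 1` -/
theorem blk_root (hp : 5 ≤ p) {x : Ω} (h0 : x ≠ 0) (h1 : x ≠ 1) (hx : Per p x)
    (hr : x ^ 2 - x + 1 = 0) : ∃ n y, Blk p x n y := by
  have hinv : x⁻¹ = 1 - x := by
    field_simp
    linear_combination hr
  have hne := H52FD.root_ne_inv hp hr
  obtain ⟨hf1, hf2⟩ := H52FD.root_frob hp hr
  have hpp : p.Prime := Fact.out
  have h3 : p % 3 = 0 ∨ p % 3 = 1 ∨ p % 3 = 2 := by omega
  rcases h3 with h3 | h3 | h3
  · exfalso
    have : 3 ∣ p := Nat.dvd_of_mod_eq_zero h3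
    rcases (Nat.dvd_prime hpp).1 this with h | h <;> omega
  · refine ⟨2, ![x, 1 - x], ?_, ?_, ?_, ?_, ?_⟩
    · intro j
      fin_cases j
      · exact Rch.refl
      · exact Rch.refl.sub
    · apply dist_of_lt
      · intro j
        fin_cases j
        · exact hx
        · exact hx.sub
      · intro i j hij
        fin_cases i <;> fin_cases j <;> simp at hij
        rintro ⟨k, hk⟩
        have hk' : 1 - x = x ^ p ^ k := hk
        have hall : ∀ k, x ^ p ^ k = x := by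
          intro k
          induction k with
          | zero => simp
          | succ k ih => rw [pow_succ, pow_mul, ih, hf1 h3]
        rw [hall, ← hinv] at hk'
        exact hne hk'
    · intro j
      fin_cases j
      · exact ⟨1, Cj.of_eq hinv⟩
      · refine ⟨0, Cj.of_eq ?_⟩
        show (1 - x)⁻¹ = x
        rw [← hinv, inv_inv]
    · intro j
      fin_cases j
      · exact ⟨1, Cj.refl _⟩
      · refine ⟨0, Cj.of_eq ?_⟩
        show 1 - (1 - x) = x
        ring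
    · exact Or.inr (Or.inr (Or.inl ⟨rfl, Or.inl h3⟩))
  · have hi : x⁻¹ = x ^ p ^ 1 := by rw [pow_one, hf2 h3]
    have hj : 1 - x = x ^ p ^ 1 := by rw [← hinv, hi]
    have hev := (H52FD.orb_core hp h0 h1 hi hj).2.2
    refine ⟨1, ![x], ?_, ?_, ?_, ?_, ?_⟩
    · intro j
      fin_cases j
      exact Rch.refl
    · intro i j _
      exact Subsingleton.elim i j
    · intro j
      fin_cases j
      exact ⟨0, Cj.symm hx ⟨1, hi⟩⟩
    · intro j
      fin_cases j
      exact ⟨0, Cj.symm hx ⟨1, hj⟩⟩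
    · refine Or.inr (Or.inr (Or.inr ⟨rfl, h3, ?_⟩))
      intro j f hf
      fin_cases j
      exact hev f hf

theorem natCast_pow_p (n k : ℕ) : ((n : ℕ) : Ω) ^ p ^ k = n := by
  have h := map_natCast (iterateFrobenius Ω p k) n
  rwa [iterateFrobenius_def] at h

/-- the values `-1, 2, 1/2` -/
theorem blk_wief (hp : 5 ≤ p) {x : Ω} (hx : x = -1) : ∃ n y, Blk p x n y := by
  have hpp : p.Prime := Fact.out
  have h3 : (3 : Ω) ≠ 0 := H52FD.three_ne hp
  have h2 : (2 : Ω) ≠ 0 := by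
    intro h
    have h' : ((2 : ℕ) : Ω) = 0 := by exact_mod_cast h
    rw [CharP.cast_eq_zero_iff Ω p] at h'
    have := Nat.le_of_dvd (by norm_num) h'
    omega
  have e2 : ∀ k, (2 : Ω) ^ p ^ k = 2 := fun k => by
    have := natCast_pow_p (Ω := Ω) (p := p) 2 k
    exact_mod_cast this
  have e1 : ∀ k, (-1 : Ω) ^ p ^ k = -1 := fun k => by
    have hodd : Odd (p ^ k) := by
      apply Odd.pow
      rcases hpp.eq_two_or_odd' with h | h
      · omega
      · exact h
    rw [hodd.neg_one_pow]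
  have e3 : ∀ k, (2⁻¹ : Ω) ^ p ^ k = 2⁻¹ := fun k => by rw [inv_pow, e2]
  have hPer : ∀ z : Ω, z ^ p ^ 1 = z → Per p z := fun z hz => ⟨1, one_pos, hz⟩
  subst hx
  have s2 : (1 : Ω) - -1 = 2 := by norm_num
  refine ⟨3, ![-1, 2, 2⁻¹], ?_, ?_, ?_, ?_, ?_⟩
  · intro j
    fin_cases j
    · exact Rch.refl
    · have := (Rch.refl (x := (-1 : Ω))).sub
      rw [s2] at this
      exact this
    · have := (Rch.refl (x := (-1 : Ω))).sub.inv
      rw [s2] at this
      exact this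
  · apply dist_of_lt
    · intro j
      fin_cases j
      · exact hPer _ (e1 1)
      · exact hPer _ (e2 1)
      · exact hPer _ (e3 1)
    · intro i j hij
      fin_cases i <;> fin_cases j <;> simp at hij
      · rintro ⟨k, hk⟩
        have hk' : (2 : Ω) = (-1) ^ p ^ k := hk
        rw [e1] at hk'
        apply h3
        linear_combination hk'
      · rintro ⟨k, hk⟩
        have hk' : (2⁻¹ : Ω) = (-1) ^ p ^ k := hk
        rw [e1] at hk'
        field_simp at hk'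
        apply h3
        linear_combination hk'
      · rintro ⟨k, hk⟩
        have hk' : (2⁻¹ : Ω) = 2 ^ p ^ k := hk
        rw [e2] at hk'
        field_simp at hk'
        apply h3
        linear_combination -hk'
  · intro j
    fin_cases j
    · refine ⟨0, Cj.of_eq ?_⟩
      show (-1 : Ω)⁻¹ = -1
      norm_num
    · exact ⟨2, Cj.refl _⟩
    · refine ⟨1, Cj.of_eq ?_⟩
      show (2⁻¹ : Ω)⁻¹ = 2
      rw [inv_inv]
  · intro j
    fin_cases j
    · exact ⟨1, Cj.of_eq s2⟩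
    · refine ⟨0, Cj.of_eq ?_⟩
      show (1 : Ω) - 2 = -1
      norm_num
    · refine ⟨2, Cj.of_eq ?_⟩
      show (1 : Ω) - 2⁻¹ = 2⁻¹
      field_simp
      norm_num
  · exact Or.inr (Or.inl ⟨rfl, Or.inl ⟨0, rfl⟩⟩)

/-- `1/x` and `1 - x` conjugate to `x`: a root -/
theorem root_of_AB (hp : 5 ≤ p) {x : Ω} (h0 : x ≠ 0) (h1 : x ≠ 1) (hA : Cj p x x⁻¹)
    (hB : Cj p x (1 - x)) : x ^ 2 - x + 1 = 0 := by
  obtain ⟨i, hi⟩ := hA
  obtain ⟨j, hj⟩ := hB
  exact (H52FD.orb_core hp h0 h1 hi hj).1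

theorem root_inv {x : Ω} (h0 : x ≠ 0) (h : x⁻¹ ^ 2 - x⁻¹ + 1 = 0) : x ^ 2 - x + 1 = 0 := by
  field_simp at h
  linear_combination h

/-- an involution -/
theorem blk_A (hp : 5 ≤ p) {x : Ω} (h0 : x ≠ 0) (h1 : x ≠ 1) (hx : Per p x)
    (hr : x ^ 2 - x + 1 ≠ 0) (hA : Cj p x x⁻¹) : ∃ n y, Blk p x n y := by
  by_cases hfix : x⁻¹ = x
  · have hxx : x * x = 1 := by
      nth_rewrite 1 [← hfix]
      exact inv_mul_cancel₀ h0
    rcases mul_self_eq_one_iff.mp hxx with h | h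
    · exact absurd h h1
    · exact blk_wief hp h
  -- the even degree
  have hev : ∀ f, x ^ p ^ f = x → Even f := by
    intro f hf
    obtain ⟨k, hk⟩ := hA
    have h2 : (fun y : Ω => y⁻¹)^[2] x = x := by simp
    exact even_iff_two_dvd.mpr (period Nat.prime_two (fun y => y⁻¹)
      (fun y m => (inv_pow y _).symm) h2 hk hfix hf)
  have hsubne : (1 - x) ≠ 0 := sub_ne_zero.mpr (Ne.symm h1)
  refine ⟨3, ![x, 1 - x, (1 - x)⁻¹], ?_, ?_, ?_, ?_, ?_⟩
  · intro j
    fin_cases j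
    · exact Rch.refl
    · exact Rch.refl.sub
    · exact Rch.refl.sub.inv
  · apply dist_of_lt
    · intro j
      fin_cases j
      · exact hx
      · exact hx.sub
      · exact hx.sub.inv
    · intro i j hij
      fin_cases i <;> fin_cases j <;> simp at hij
      · intro hc
        exact hr (root_of_AB hp h0 h1 hA hc)
      · intro hc
        have hc' : Cj p x (1 - x)⁻¹ := hc
        have h2 := hc'.inv
        rw [inv_inv] at h2
        exact hr (root_of_AB hp h0 h1 hA (hA.trans h2))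
      · intro hc
        have hc' : Cj p (1 - x) (1 - x)⁻¹ := hc
        have h2 := hc'.sub
        rw [sub_sub_cancel, bab h0 h1] at h2
        have h3 := h2.inv
        rw [inv_inv] at h3
        -- `z = x⁻¹`: `Cj z (1 - z)`, `Cj z z⁻¹`
        have h4 : Cj p x⁻¹ (x⁻¹)⁻¹ := by
          rw [inv_inv]
          exact hA.symm hx
        have h5 := root_of_AB hp (inv_ne_zero h0) (fun h => h1 (inv_eq_one.mp h)) h4 h3
        exact hr (root_inv h0 h5)
  · intro j
    fin_cases j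
    · exact ⟨0, hA.symm hx⟩
    · exact ⟨2, Cj.refl _⟩
    · refine ⟨1, Cj.of_eq ?_⟩
      show ((1 - x)⁻¹)⁻¹ = 1 - x
      rw [inv_inv]
  · intro j
    fin_cases j
    · exact ⟨1, Cj.refl _⟩
    · refine ⟨0, Cj.of_eq ?_⟩
      show 1 - (1 - x) = x
      ring
    · refine ⟨2, ?_⟩
      show Cj p (1 - (1 - x)⁻¹) (1 - x)⁻¹
      rw [bab h0 h1]
      exact (hA.symm hx).sub.inv
  · refine Or.inr (Or.inl ⟨rfl, Or.inr ?_⟩)
    intro j f hf
    fin_cases j
    · exact hev f hf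
    · have hf' : (1 - x) ^ p ^ f = 1 - x := hf
      rw [sub_pow_char_pow, one_pow] at hf'
      exact hev f (by linear_combination -hf')
    · have hf' : (1 - x)⁻¹ ^ p ^ f = (1 - x)⁻¹ := hf
      rw [inv_pow, inv_inj, sub_pow_char_pow, one_pow] at hf'
      exact hev f (by linear_combination -hf')

/-- a rotation -/
theorem blk_R (hp : 5 ≤ p) {x : Ω} (h0 : x ≠ 0) (h1 : x ≠ 1) (hx : Per p x)
    (hr : x ^ 2 - x + 1 ≠ 0) (hR : Cj p x (1 - x⁻¹)) : ∃ n y, Blk p x n y := by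
  have hx1 : x - 1 ≠ 0 := sub_ne_zero.mpr h1
  have hsub1 : 1 - x ≠ 0 := sub_ne_zero.mpr (Ne.symm h1)
  have hRR : 1 - (1 - x⁻¹)⁻¹ = (1 - x)⁻¹ := bcx h0 h1
  -- the other rotation
  have hR' : Cj p x (1 - x)⁻¹ := by
    have h2 := hR.inv.sub
    rw [hRR] at h2
    exact hR.trans h2
  have hcomm : ∀ (y : Ω) (k : ℕ), 1 - (y ^ p ^ k)⁻¹ = (1 - y⁻¹) ^ p ^ k := by
    intro y k
    rw [sub_pow_char_pow, one_pow, inv_pow]
  have hfix : 1 - x⁻¹ ≠ x := by
    intro h
    apply hr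
    field_simp at h
    linear_combination -h
  have h3x : (fun y : Ω => 1 - y⁻¹)^[3] x = x := by
    show 1 - (1 - (1 - x⁻¹)⁻¹)⁻¹ = x
    rw [hRR, inv_inv]
    ring
  have hdiv : ∀ f, x ^ p ^ f = x → 3 ∣ f := by
    intro f hf
    obtain ⟨k, hk⟩ := hR
    exact period Nat.prime_three (fun y => 1 - y⁻¹) hcomm h3x hk hfix hf
  refine ⟨2, ![x, x⁻¹], ?_, ?_, ?_, ?_, ?_⟩
  · intro j
    fin_cases j
    · exact Rch.refl
    · exact Rch.refl.inv
  · apply dist_of_lt
    · intro j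
      fin_cases j
      · exact hx
      · exact hx.inv
    · intro i j hij
      fin_cases i <;> fin_cases j <;> simp at hij
      intro hA
      have hA' : Cj p x x⁻¹ := hA
      have h4 : Cj p x⁻¹ (x⁻¹)⁻¹ := by
        rw [inv_inv]
        exact hA'.symm hx
      have h5 : Cj p x⁻¹ (1 - x⁻¹) := (hA'.symm hx).trans hR
      exact hr (root_inv h0 (root_of_AB hp (inv_ne_zero h0) (fun h => h1 (inv_eq_one.mp h)) h4 h5))
  · intro j
    fin_cases j
    · exact ⟨1, Cj.refl _⟩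
    · refine ⟨0, Cj.of_eq ?_⟩
      show (x⁻¹)⁻¹ = x
      rw [inv_inv]
  · intro j
    fin_cases j
    · refine ⟨1, ?_⟩
      show Cj p (1 - x) x⁻¹
      have h6 := (hR'.symm hx).inv
      rw [inv_inv] at h6
      exact h6
    · exact ⟨0, hR.symm hx⟩
  · refine Or.inr (Or.inr (Or.inl ⟨rfl, Or.inr ?_⟩))
    intro j f hf
    fin_cases j
    · exact hdiv f hf
    · have hf' : x⁻¹ ^ p ^ f = x⁻¹ := hf
      rw [inv_pow, inv_inj] at hf'
      exact hdiv f hf'

/-- the free case -/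
theorem blk_free {x : Ω} (h0 : x ≠ 0) (h1 : x ≠ 1) (hx : Per p x)
    (hA : ¬ Cj p x x⁻¹) (hB : ¬ Cj p x (1 - x)) (hC : ¬ Cj p x (1 - x⁻¹)⁻¹)
    (hR : ¬ Cj p x (1 - x⁻¹)) (hR' : ¬ Cj p x (1 - x)⁻¹) : ∃ n y, Blk p x n y := by
  have e1 := bab h0 h1
  have e2 := bcx h0 h1
  have e3 := acx h0 h1
  refine ⟨6, ![x, x⁻¹, 1 - x, 1 - x⁻¹, (1 - x)⁻¹, (1 - x⁻¹)⁻¹], ?_, ?_, ?_, ?_, ?_⟩
  · intro j
    fin_cases j
    · exact Rch.refl
    · exact Rch.refl.inv
    · exact Rch.refl.sub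
    · exact Rch.refl.inv.sub
    · exact Rch.refl.sub.inv
    · exact Rch.refl.inv.sub.inv
  · apply dist_of_lt
    · intro j
      fin_cases j
      · exact hx
      · exact hx.inv
      · exact hx.sub
      · exact hx.inv.sub
      · exact hx.sub.inv
      · exact hx.inv.sub.inv
    · intro i j hij
      fin_cases i <;> fin_cases j <;> simp at hij
      · exact hA
      · exact hB
      · exact hR
      · exact hR'
      · exact hC
      · intro hc
        have h := Cj.inv (show Cj p x⁻¹ (1 - x) from hc)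
        rw [inv_inv] at h
        exact hR' h
      · intro hc
        have h := Cj.inv (show Cj p x⁻¹ (1 - x⁻¹) from hc)
        rw [inv_inv] at h
        exact hC h
      · intro hc
        have h := Cj.inv (show Cj p x⁻¹ (1 - x)⁻¹ from hc)
        rw [inv_inv, inv_inv] at h
        exact hB h
      · intro hc
        have h := Cj.inv (show Cj p x⁻¹ (1 - x⁻¹)⁻¹ from hc)
        rw [inv_inv, inv_inv] at h
        exact hR h
      · intro hc
        have h := Cj.sub (show Cj p (1 - x) (1 - x⁻¹) from hc)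
        rw [sub_sub_cancel, sub_sub_cancel] at h
        exact hA h
      · intro hc
        have h := Cj.sub (show Cj p (1 - x) (1 - x)⁻¹ from hc)
        rw [sub_sub_cancel, e1] at h
        exact hC h
      · intro hc
        have h := Cj.sub (show Cj p (1 - x) (1 - x⁻¹)⁻¹ from hc)
        rw [sub_sub_cancel, e2] at h
        exact hR' h
      · intro hc
        have h := Cj.inv (Cj.sub (show Cj p (1 - x⁻¹) (1 - x)⁻¹ from hc))
        rw [sub_sub_cancel, inv_inv, e3] at h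
        exact hR h
      · intro hc
        have h := Cj.inv (Cj.sub (show Cj p (1 - x⁻¹) (1 - x⁻¹)⁻¹ from hc))
        rw [sub_sub_cancel, inv_inv, e2, inv_inv] at h
        exact hB h
      · intro hc
        have h := Cj.sub (Cj.inv (show Cj p (1 - x)⁻¹ (1 - x⁻¹)⁻¹ from hc))
        rw [inv_inv, inv_inv, sub_sub_cancel, sub_sub_cancel] at h
        exact hA h
  · intro j
    fin_cases j
    · exact ⟨1, Cj.refl _⟩
    · exact ⟨0, Cj.of_eq (inv_inv x)⟩
    · exact ⟨4, Cj.refl _⟩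
    · exact ⟨5, Cj.refl _⟩
    · exact ⟨2, Cj.of_eq (inv_inv (1 - x))⟩
    · exact ⟨3, Cj.of_eq (inv_inv (1 - x⁻¹))⟩
  · intro j
    fin_cases j
    · exact ⟨2, Cj.refl _⟩
    · exact ⟨3, Cj.refl _⟩
    · exact ⟨0, Cj.of_eq (sub_sub_cancel 1 x)⟩
    · exact ⟨1, Cj.of_eq (sub_sub_cancel 1 x⁻¹)⟩
    · exact ⟨5, Cj.of_eq e1⟩
    · exact ⟨4, Cj.of_eq e2⟩
  · exact Or.inl rfl

theorem root_sub {x : Ω} : (1 - x) ^ 2 - (1 - x) + 1 = x ^ 2 - x + 1 := by ring

/-- THE ORBIT LEMMA -/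
theorem orbit (hp : 5 ≤ p) {x : Ω} (h0 : x ≠ 0) (h1 : x ≠ 1) (hx : Per p x) :
    ∃ n y, Blk p x n y := by
  by_cases hr : x ^ 2 - x + 1 = 0
  · exact blk_root hp h0 h1 hx hr
  by_cases hA : Cj p x x⁻¹
  · exact blk_A hp h0 h1 hx hr hA
  by_cases hR : Cj p x (1 - x⁻¹)
  · exact blk_R hp h0 h1 hx hr hR
  by_cases hR' : Cj p x (1 - x)⁻¹
  · -- the other rotation
    exfalso
    apply hR
    have h2 := hR'.sub.inv
    rw [acx h0 h1] at h2
    exact hR'.trans h2
  by_cases hC : Cj p x (1 - x⁻¹)⁻¹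
  · -- base point `1 - x`
    have hn := (Rch.refl (x := x)).sub.ne h0 h1
    obtain ⟨n, y, hb⟩ := blk_A (p := p) hp hn.1 hn.2 hx.sub (by rw [root_sub]; exact hr) (by
      have h2 := hC.sub
      rwa [bcx h0 h1] at h2)
    exact ⟨n, y, hb.mono Rch.refl.sub⟩
  by_cases hB : Cj p x (1 - x)
  · -- base point `(1 - x⁻¹)⁻¹`
    have hn := (Rch.refl (x := x)).inv.sub.inv.ne h0 h1
    obtain ⟨n, y, hb⟩ := blk_A (p := p) hp hn.1 hn.2 hx.inv.sub.inv (by
      intro h
      apply hr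
      have h4 : (1 - x⁻¹) ^ 2 - (1 - x⁻¹) + 1 = 0 := by
        have h5 := root_inv (x := (1 - x⁻¹)) (by
          intro h6
          apply hn.1
          rw [h6, inv_zero]) h
        exact h5
      rw [root_sub] at h4
      exact root_inv h0 h4) (by
      rw [inv_inv]
      have h2 := hB.inv.sub
      -- `Cj (1 - x⁻¹) (1 - (1-x)⁻¹)`
      rw [bab h0 h1] at h2
      exact h2.symm hx.inv.sub)
    exact ⟨n, y, hb.mono Rch.refl.inv.sub.inv⟩
  exact blk_free h0 h1 hx hA hB hC hR hR'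

end blocks

end H85FD
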